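import Mathlib
import Pool.Agent.H67R4.SR.Ends
import Pool.Agent.H67R3.FSR.Assembly

set_option autoImplicit false

/-!
# Patterson-Sullivan measures and currents of points of Outer space

`FTree N` (isometric actions of the free group of rank `N` on R-trees) and `FTree.InCV`
(unprojectivized Outer space `cv_N`): `Pool/Agent/H472R3/Defs.lean`. The boundary `Bd N` and the
space `Bd2 N` of pairs of distinct boundary points: `Pool/Agent/H67R3/FSR/Boundary.lean`. Geodesic
currents `Current N`, with the weak-* topology: `Pool/Agent/H67R3/FSR/Current.lean`. The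
intersection form `IsIntersectionForm`: `Pool/Agent/H67R3/FSR/Assembly.lean`. `ray ξ n` is the
`n`-th vertex of the ray from `1` to the end `ξ` in the Cayley tree: `Pool/Agent/H67R4/SR/Ends.lean`.
-/

namespace Pool.Agent.P8H64.PS

open Pool.Agent.H472R3 Pool.Agent.H67R3.FSR Filter Topology MeasureTheory
open Pool.Agent.H67R4.SR (ray)
open scoped ENNReal NNReal

variable {N : ℕ}

/-- The Borel `σ`-algebra of the boundary. -/
instance : MeasurableSpace (Bd N) := borel (Bd N)

instance : BorelSpace (Bd N) := ⟨rfl⟩

/-- The Busemann function of the tree `A.T` at the boundary point `ξ`: the limit of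
`d(y, p_n) - d(x, p_n)`, where `p_n` goes to the end of the tree which corresponds to `ξ`. -/
noncomputable def busemann (A : FTree N) (ξ : Bd N) (y x : A.T) : ℝ :=
  limUnder atTop fun n : ℕ => dist y (ray ξ n • x) - dist x (ray ξ n • x)

/-- The Gromov product `(ξ|ζ)_x` of two boundary points in the tree `A.T`. -/
noncomputable def gromov (A : FTree N) (x : A.T) (ξ ζ : Bd N) : ℝ :=
  limUnder atTop fun n : ℕ =>
    (dist x (ray ξ n • x) + dist x (ray ζ n • x) - dist (ray ξ n • x) (ray ζ n • x)) / 2

/-- The critical exponent (volume entropy) of the action: the infimum of the exponents `s` for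
which the Poincaré series `∑ g, exp (-s d(x, g x))` converges. -/
noncomputable def critExp (A : FTree N) : ℝ :=
  sInf {s : ℝ | ∃ x : A.T, Summable fun g : FreeGroup (Fin N) => Real.exp (-s * dist x (g • x))}

/-- `ν` is a family of Patterson-Sullivan measures for the action: finite nonzero Borel measures
`ν x` on the boundary, `x` in the tree, with `g_* (ν x) = ν (g x)` and
`d(ν y)/d(ν x) (ξ) = exp (-h β_ξ(y, x))`, where `h` is the critical exponent. -/
structure IsPattersonSullivan (A : FTree N) (ν : A.T → Measure (Bd N)) : Prop where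
  finite : ∀ x, ν x Set.univ < ∞
  ne_zero : ∀ x, ν x ≠ 0
  equivariant : ∀ (g : FreeGroup (Fin N)) (x : A.T), (ν x).map (fun ξ => g • ξ) = ν (g • x)
  conformal : ∀ x y : A.T, ν y = (ν x).withDensity fun ξ =>
    ENNReal.ofReal (Real.exp (-critExp A * busemann A ξ y x))

/-- `μ` is a Patterson-Sullivan current of `A`, up to a factor `c`:
`dμ(ξ, ζ) = c exp (2 h (ξ|ζ)_x) dν_x(ξ) dν_x(ζ)`. -/
def IsPSCurrent (A : FTree N) (μ : Current N) : Prop :=
  ∃ ν : A.T → Measure (Bd N), IsPattersonSullivan A ν ∧ ∃ (x : A.T) (c : ℝ≥0),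
    μ.meas.map (fun q : Bd2 N => q.1) =
      c • ((((ν x).prod (ν x)).restrict {p : Bd N × Bd N | p.1 ≠ p.2}).withDensity fun p =>
        ENNReal.ofReal (Real.exp (2 * critExp A * gromov A x p.1 p.2)))

end Pool.Agent.P8H64.PS
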