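import Mathlib
import Pool.Agent.H67R4.SR.Limit
import Pool.Agent.H67R3.FSR.Assembly
import Pool.Agent.H67R3.FSR.Point

set_option autoImplicit false

/-!
# Length functions of points of Outer space: bounded cancellation
-/

namespace Pool.Agent.P8H64.PS

open Pool.Agent.H472R3 Pool.Agent.H67R3.FSR Filter Topology
open Pool.Agent.H67R4.SR hiding Q

variable {N : ℕ}

section

variable (ℓ : LenFn N)

theorem upper : ∃ C : ℝ, 0 ≤ C ∧ ∀ g, ℓ.L g ≤ C * g.norm := by
  refine ⟨∑ a : Lt N, ℓ.L (lt a), Finset.sum_nonneg fun a _ => L_nonneg _ _, ?_⟩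
  set C := ∑ a : Lt N, ℓ.L (lt a) with hC
  have key : ∀ l : List (Lt N), ℓ.L (FreeGroup.mk l) ≤ C * l.length := by
    intro l
    induction l with
    | nil =>
      have : (FreeGroup.mk [] : FreeGroup (Fin N)) = 1 := rfl
      rw [this, ℓ.one]
      simp
    | cons a l ih =>
      rw [mk_cons]
      have h1 := tri ℓ (lt a) (FreeGroup.mk l)
      have h2 : ℓ.L (lt a) ≤ C := Finset.single_le_sum
        (f := fun a => ℓ.L (lt a)) (fun a _ => L_nonneg _ _) (Finset.mem_univ a)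
      rw [List.length_cons]
      push_cast
      linarith
  intro g
  have h2 := key g.toWord
  rw [FreeGroup.mk_toWord] at h2
  exact h2

theorem Q_lower {φ : FreeGroup (Fin N) ≃* FreeGroup (Fin N)} {δ : ℝ}
    (hδ : ∀ a b d : Lt N, b ≠ inv' a → d ≠ inv' b →
      δ + G ℓ (φ (lt a))⁻¹ (φ (lt b)) + G ℓ (φ (lt b))⁻¹ (φ (lt d)) ≤ ℓ.L (φ (lt b))) :
    ∀ (l : List (Lt N)) (a b : Lt N), FreeGroup.IsReduced (b :: l) → b ≠ inv' a →
      δ * (l.length + 1) + G ℓ (φ (lt a))⁻¹ (φ (lt b)) ≤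
        Q (fun a => ℓ.L (φ (lt a)), fun q => G ℓ (φ (lt q.1))⁻¹ (φ (lt q.2))) (b :: l)
  | [], a, b, _, hab => by
    have h := hδ a b b hab (by
      intro hb
      have := congrArg Prod.snd hb
      simp [inv'] at this)
    have h2 := G_nonneg ℓ (φ (lt b))⁻¹ (φ (lt b))
    simp only [Q, List.length_nil, Nat.cast_zero, zero_add, mul_one]
    linarith
  | d :: l, a, b, hr, hab => by
    have hbd : d ≠ inv' b := by
      apply reduced_step
      have := hr
      unfold FreeGroup.IsReduced at this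
      rw [List.isChain_cons_cons] at this
      exact this.1
    have ih := Q_lower hδ l b d hr.tail hbd
    have h := hδ a b d hab hbd
    simp only [Q, List.length_cons, Nat.cast_add, Nat.cast_one] at ih ⊢
    linarith

theorem lower (hhyp : ∀ g, g ≠ 1 → ℓ.L g < ℓ.L (g * g))
    (hfin : ∀ R : ℝ, {g | ℓ.L g ≤ R}.Finite) :
    ∃ c : ℝ, 0 < c ∧ ∀ g, c * g.norm ≤ ℓ.L g := by
  classical
  obtain ⟨φ, hφ⟩ := nielsen ℓ hhyp hfin
  obtain ⟨δ, hδ, hδ'⟩ : ∃ δ > 0, ∀ a b d : Lt N, b ≠ inv' a → d ≠ inv' b →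
      δ + G ℓ (φ (lt a))⁻¹ (φ (lt b)) + G ℓ (φ (lt b))⁻¹ (φ (lt d)) ≤ ℓ.L (φ (lt b)) := by
    set f : Lt N × Lt N × Lt N → ℝ := fun t =>
      if t.2.1 ≠ inv' t.1 ∧ t.2.2 ≠ inv' t.2.1 then
        ℓ.L (φ (lt t.2.1)) - (G ℓ (φ (lt t.1))⁻¹ (φ (lt t.2.1)) +
          G ℓ (φ (lt t.2.1))⁻¹ (φ (lt t.2.2))) else 1 with hf
    have hpos : ∀ t, 0 < f t := by
      intro t
      rw [hf]
      simp only
      split_ifs with h
      · have := hφ t.1 t.2.1 t.2.2 h.1 h.2
        linarith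
      · exact one_pos
    have : ∃ δ > 0, ∀ t, δ ≤ f t := by
      rcases isEmpty_or_nonempty (Lt N × Lt N × Lt N) with h | h
      · exact ⟨1, one_pos, fun t => h.elim t⟩
      · obtain ⟨t0, ht0⟩ := Finite.exists_min f
        exact ⟨f t0, hpos t0, ht0⟩
    obtain ⟨δ, h1, h2⟩ := this
    refine ⟨δ, h1, fun a b d hab hbd => ?_⟩
    have := h2 (a, b, d)
    rw [hf] at this
    simp only at this
    rw [if_pos ⟨hab, hbd⟩] at this
    linarith
  have key : ∀ g : FreeGroup (Fin N), δ * g.norm ≤ ℓ.L (φ g) := by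
    intro g
    have h1 := formula_list ℓ φ hφ g.toWord FreeGroup.isReduced_toWord
    rw [FreeGroup.mk_toWord] at h1
    rw [h1]
    unfold FreeGroup.norm
    rcases hw : g.toWord with _ | ⟨b, l⟩
    · simp [Q]
    · have hr : FreeGroup.IsReduced (b :: l) := by
        rw [← hw]; exact FreeGroup.isReduced_toWord
      have h2 := Q_lower ℓ hδ' l b b hr (by
        intro hb
        have := congrArg Prod.snd hb
        simp [inv'] at this)
      have h3 := G_nonneg ℓ (φ (lt b))⁻¹ (φ (lt b))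
      rw [List.length_cons]
      push_cast
      linarith
  obtain ⟨B, hB⟩ := exists_lip φ
  refine ⟨δ / (B + 1), div_pos hδ (by positivity), fun g => ?_⟩
  have h1 := key (φ.symm g)
  rw [MulEquiv.apply_symm_apply] at h1
  have h2 := hB (φ.symm g)
  rw [MulEquiv.apply_symm_apply] at h2
  have h3 : (g.norm : ℝ) ≤ (B + 1) * ((φ.symm g).norm : ℝ) := by
    have : (g.norm : ℝ) ≤ B * ((φ.symm g).norm : ℝ) := by exact_mod_cast h2
    have h4 : (0 : ℝ) ≤ ((φ.symm g).norm : ℝ) := Nat.cast_nonneg _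
    linarith
  refine le_trans ?_ h1
  rw [div_mul_eq_mul_div, div_le_iff₀ (by positivity), mul_assoc]
  apply mul_le_mul_of_nonneg_left _ hδ.le
  linarith

theorem G_one (g : FreeGroup (Fin N)) : G ℓ 1 g = 0 := by
  unfold G
  rw [inv_one, one_mul, ℓ.one]
  ring

theorem G_le_left (g h : FreeGroup (Fin N)) : G ℓ g h ≤ ℓ.L g := by
  unfold G
  have := tri ℓ g (g⁻¹ * h)
  rw [mul_inv_cancel_left] at this
  linarith

/-- A prefix which goes as far as the level `D`. -/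
theorem prefix_lemma {C : ℝ} (hC : 0 ≤ C) (hL : ∀ a : Lt N, ℓ.L (lt a) ≤ C)
    (g : FreeGroup (Fin N)) {D : ℝ} (hD : 0 ≤ D) (l : List (Lt N)) :
    D ≤ G ℓ (FreeGroup.mk l) g → ∃ l' t, l = l' ++ t ∧ ℓ.L (FreeGroup.mk l') ≤ D + C ∧
      D ≤ G ℓ (FreeGroup.mk l') g := by
  induction l using List.reverseRecOn with
  | nil =>
    intro h
    refine ⟨[], [], rfl, ?_, h⟩
    have : (FreeGroup.mk [] : FreeGroup (Fin N)) = 1 := rfl
    rw [this, ℓ.one]
    linarith
  | append_singleton l b ih =>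
    intro h
    by_cases h1 : ℓ.L (FreeGroup.mk (l ++ [b])) ≤ D + C
    · exact ⟨l ++ [b], [], by simp, h1, h⟩
    · have e : (FreeGroup.mk (l ++ [b]) : FreeGroup (Fin N)) = FreeGroup.mk l * lt b := by
        rw [← FreeGroup.mul_mk]; rfl
      have h2 : ℓ.L (FreeGroup.mk (l ++ [b])) - C ≤ G ℓ (FreeGroup.mk l)
          (FreeGroup.mk (l ++ [b])) := by
        unfold G
        have e2 : (FreeGroup.mk l)⁻¹ * FreeGroup.mk (l ++ [b]) = lt b := by
          rw [e, inv_mul_cancel_left]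
        have h3 := tri ℓ (FreeGroup.mk l) (lt b)
        rw [← e] at h3
        rw [e2]
        have := hL b
        linarith
      have h4 := G_um ℓ (FreeGroup.mk l) (FreeGroup.mk (l ++ [b])) g
      have h5 : D ≤ G ℓ (FreeGroup.mk l) g := le_trans (le_min (by linarith) h) h4
      obtain ⟨l', t, h6, h7, h8⟩ := ih h5
      exact ⟨l', t ++ [b], by rw [h6, List.append_assoc], h7, h8⟩

theorem norm_append {l t : List (Lt N)} (h : FreeGroup.IsReduced (l ++ t)) :
    (FreeGroup.mk l : FreeGroup (Fin N)).norm = l.length ∧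
      (FreeGroup.mk t : FreeGroup (Fin N)).norm = t.length := by
  have h1 := List.isChain_append.mp h
  unfold FreeGroup.norm
  rw [toWord_mk_red h1.1, toWord_mk_red h1.2.1]
  exact ⟨rfl, rfl⟩

/-- Bounded cancellation. -/
theorem bounded_cancellation (hhyp : ∀ g, g ≠ 1 → ℓ.L g < ℓ.L (g * g))
    (hfin : ∀ R : ℝ, {g | ℓ.L g ≤ R}.Finite) :
    ∃ K : ℝ, 0 ≤ K ∧ ∀ u v : FreeGroup (Fin N), (u * v).norm = u.norm + v.norm →
      ℓ.L u + ℓ.L v - K ≤ ℓ.L (u * v) := by
  obtain ⟨c, hc, hlow⟩ := lower ℓ hhyp hfin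
  obtain ⟨C, hC, hup⟩ := upper ℓ
  have hlt : ∀ a : Lt N, ℓ.L (lt a) ≤ C := by
    intro a
    have := hup (lt a)
    rwa [norm_lt, Nat.cast_one, mul_one] at this
  refine ⟨2 * (C * (2 * C / c)), by positivity, fun u v huv => ?_⟩
  set D := G ℓ u⁻¹ v with hD
  have hD0 : 0 ≤ D := G_nonneg ℓ _ _
  obtain ⟨l1, t1, h1, h2, h3⟩ := prefix_lemma ℓ hC hlt v hD0 (u⁻¹).toWord
    (by rw [FreeGroup.mk_toWord])
  rw [G_comm] at h3
  have h3' : D ≤ G ℓ (FreeGroup.mk v.toWord) (FreeGroup.mk l1) := by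
    rw [FreeGroup.mk_toWord]; exact h3
  obtain ⟨l2, t2, h4, h5, h6⟩ := prefix_lemma ℓ hC hlt (FreeGroup.mk l1) hD0 v.toWord h3'
  set a : FreeGroup (Fin N) := FreeGroup.mk l1 with ha
  set b : FreeGroup (Fin N) := FreeGroup.mk l2 with hb
  have r1 : FreeGroup.IsReduced (l1 ++ t1) := by
    rw [← h1]; exact FreeGroup.isReduced_toWord
  have r2 : FreeGroup.IsReduced (l2 ++ t2) := by
    rw [← h4]; exact FreeGroup.isReduced_toWord
  have n1 := norm_append r1
  have n2 := norm_append r2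
  have e1 : u⁻¹ = a * FreeGroup.mk t1 := by
    rw [← FreeGroup.mk_toWord (x := u⁻¹), h1, ← FreeGroup.mul_mk]
  have e2 : v = b * FreeGroup.mk t2 := by
    conv_lhs => rw [← FreeGroup.mk_toWord (x := v), h4, ← FreeGroup.mul_mk]
  have n3 : u.norm = a.norm + (FreeGroup.mk t1 : FreeGroup (Fin N)).norm := by
    rw [← FreeGroup.norm_inv_eq]
    rw [n1.1, n1.2]
    unfold FreeGroup.norm
    rw [h1, List.length_append]
  have n4 : v.norm = b.norm + (FreeGroup.mk t2 : FreeGroup (Fin N)).norm := by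
    rw [n2.1, n2.2]
    unfold FreeGroup.norm
    rw [h4, List.length_append]
  have n5 : a.norm + b.norm ≤ (a⁻¹ * b).norm := by
    have e3 : u * v = (FreeGroup.mk t1)⁻¹ * (a⁻¹ * b * FreeGroup.mk t2) := by
      rw [← inv_inv u, e1, e2]
      group
    have h7 := FreeGroup.norm_mul_le (FreeGroup.mk t1)⁻¹ (a⁻¹ * b * FreeGroup.mk t2)
    have h8 := FreeGroup.norm_mul_le (a⁻¹ * b) (FreeGroup.mk t2)
    rw [← e3, FreeGroup.norm_inv_eq] at h7
    omega
  have h9 : ℓ.L (a⁻¹ * b) ≤ 2 * C := by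
    have : G ℓ b a = (ℓ.L b + ℓ.L a - ℓ.L (a⁻¹ * b)) / 2 := by
      rw [G_comm]
      unfold G
      ring
    rw [this] at h6
    linarith
  have h10 := hlow (a⁻¹ * b)
  have h11 : (a.norm : ℝ) + b.norm ≤ (a⁻¹ * b).norm := by exact_mod_cast n5
  have h12 : (b.norm : ℝ) ≤ 2 * C / c := by
    rw [le_div_iff₀ hc]
    have : (0 : ℝ) ≤ (a.norm : ℝ) := Nat.cast_nonneg _
    nlinarith
  have h13 : D ≤ C * (2 * C / c) := by
    refine le_trans h6 (le_trans (G_le_left ℓ b a) (le_trans (hup b) ?_))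
    exact mul_le_mul_of_nonneg_left h12 hC
  have h14 : D = (ℓ.L u + ℓ.L v - ℓ.L (u * v)) / 2 := by
    rw [hD]
    unfold G
    rw [ℓ.inv, inv_inv]
  linarith

/-- Powers of a cyclically reduced element (for the length function). -/
theorem L_pow {g : FreeGroup (Fin N)} (hg : 0 < ℓ.L g) (h : ℓ.L (g * g) = 2 * ℓ.L g) (k : ℕ) :
    ℓ.L (g ^ k) = k * ℓ.L g := by
  have key : ∀ k : ℕ, ℓ.L (g ^ k) = k * ℓ.L g ∧ ℓ.L (g ^ (k + 1)) = (k + 1) * ℓ.L g := by
    intro k
    induction k with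
    | zero => simp [ℓ.one]
    | succ k ih =>
      refine ⟨by rw [ih.2]; push_cast; ring, ?_⟩
      have e0 : G ℓ g⁻¹ g = 0 := by
        unfold G
        rw [inv_inv, ℓ.inv, h]
        ring
      have e1 : G ℓ g (g ^ (k + 1)) = ℓ.L g := by
        unfold G
        have : g⁻¹ * g ^ (k + 1) = g ^ k := by rw [pow_succ', inv_mul_cancel_left]
        rw [this, ih.1, ih.2]
        ring
      have e2 := G_iso ℓ (g := g⁻¹) (h := g) (k := g ^ (k + 1)) (by rw [e0, e1]; exact hg)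
      rw [e0] at e2
      unfold G at e2
      rw [inv_inv, ℓ.inv, ← pow_succ', ih.2] at e2
      push_cast
      linarith
  exact (key k).1

end

theorem len_pow (A : FTree N) (hA : A.Free) (g : FreeGroup (Fin N)) (hg : g ≠ 1) (k : ℕ)
    (hk : 1 ≤ k) : A.len (g ^ k) = k * A.len g := by
  obtain ⟨x, hx⟩ := exists_axis A g
  set ℓ := lenFn A x with hℓ
  have h1 : ℓ.L g = A.len g := hx
  have h2 := len_eq' A hA x g hg
  have h3 := len_pos A hA g hg
  have h4 : ℓ.L (g * g) = 2 * ℓ.L g := by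
    rw [h1]
    rw [← hℓ, h1] at h2
    linarith
  have h5 := L_pow ℓ (by rw [h1]; exact h3) h4
  have hgk : g ^ k ≠ 1 := by
    intro h
    have := h5 k
    rw [h, ℓ.one, h1] at this
    have hk' : (0 : ℝ) < k := by exact_mod_cast hk
    have := mul_pos hk' h3
    linarith
  rw [len_eq' A hA x (g ^ k) hgk, ← hℓ, ← pow_add, h5, h5, h1]
  push_cast
  ring

end Pool.Agent.P8H64.PS
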