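import Mathlib
import Pool.Agent.P8H64.PS.Len
import Pool.Agent.P8H64.PS.Defs

set_option autoImplicit false

/-!
# Rays, Busemann functions and Gromov products
-/

namespace Pool.Agent.P8H64.PS

open Pool.Agent.H472R3 Pool.Agent.H67R3.FSR Filter Topology
open Pool.Agent.H67R4.SR hiding Q

variable {N : ℕ}

theorem ray_add (ξ : Bd N) (i : ℕ) : ∀ j, ray ξ (i + j) = ray ξ i * ray ((ray ξ i)⁻¹ • ξ) j
  | 0 => by simp [ray]
  | j + 1 => by
    have ih := ray_add ξ i j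
    rw [← add_assoc]
    simp only [ray]
    rw [ih, Bd.smul_apply, inv_inv, mul_assoc]

theorem ray_of_last (ξ : Bd N) (l : List (Lt N)) : FreeGroup.IsReduced l →
    (∀ b ∈ l.getLast?, ξ.1 (FreeGroup.mk l) ≠ inv' b) → ray ξ l.length = FreeGroup.mk l := by
  induction l using List.reverseRecOn with
  | nil => intro _ _; rfl
  | append_singleton l b ih =>
    intro hr h
    have h1 := h b (by simp)
    have e : (FreeGroup.mk (l ++ [b]) : FreeGroup (Fin N)) = FreeGroup.mk l * lt b := by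
      rw [← FreeGroup.mul_mk]; rfl
    rw [e, Ne, ξ.2 (FreeGroup.mk l) b, not_not] at h1
    have hr' := List.isChain_append.mp hr
    have h2 := ih hr'.1 (by
      intro c hc
      rw [h1]
      have := hr'.2.2 c hc b (by simp)
      rwa [reduced_iff] at this)
    rw [List.length_append, List.length_singleton, ray, h2, h1, e]

theorem ray_of_norm (ξ : Bd N) (v : FreeGroup (Fin N))
    (h : ∀ b ∈ v.toWord.getLast?, ξ.1 v ≠ inv' b) : ray ξ v.norm = v := by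
  have := ray_of_last ξ v.toWord FreeGroup.isReduced_toWord (by
    rw [FreeGroup.mk_toWord]; exact h)
  rwa [FreeGroup.mk_toWord] at this

theorem head_ray (ξ : Bd N) (n : ℕ) : (ray ξ (n + 1)).toWord.head? = some (ξ.1 1) := by
  obtain ⟨t, ht⟩ := ray_pfx ξ 1 n
  rw [add_comm, ht, ray_word]
  simp [ray]

theorem last_inv (v : FreeGroup (Fin N)) : v⁻¹.toWord.getLast? = v.toWord.head?.map inv' := by
  rw [FreeGroup.toWord_inv, FreeGroup.invRev, List.getLast?_reverse, List.head?_map]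
  rfl

theorem back_ray {ξ ζ : Bd N} (h : ξ.1 1 ≠ ζ.1 1) (n : ℕ) :
    ray ((ray ζ n)⁻¹ • ξ) n = (ray ζ n)⁻¹ := by
  have h1 := ray_of_norm ((ray ζ n)⁻¹ • ξ) (ray ζ n)⁻¹ (by
    intro b hb
    rw [Bd.smul_apply, inv_inv, mul_inv_cancel]
    rcases n with _ | n
    · simp [ray] at hb
    · rw [last_inv, head_ray, Option.map_some] at hb
      simp only [Option.mem_def, Option.some.injEq] at hb
      subst hb
      rw [inv'_inv']
      exact h)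
  rwa [FreeGroup.norm_inv_eq, ray_norm] at h1

theorem join_ray {ξ ζ : Bd N} (h : ξ.1 1 ≠ ζ.1 1) (i j : ℕ) :
    ray ((ray ξ i)⁻¹ • ζ) (i + j) = (ray ξ i)⁻¹ * ray ζ j := by
  rw [ray_add, back_ray h.symm, inv_inv, smul_inv_smul]

theorem join_norm {ξ ζ : Bd N} (h : ξ.1 1 ≠ ζ.1 1) (i j : ℕ) :
    ((ray ξ i)⁻¹ * ray ζ j).norm = i + j := by
  rw [← join_ray h, ray_norm]

section

variable (ℓ : LenFn N)

theorem G_ray_succ {c C : ℝ} (hlow : ∀ g, c * g.norm ≤ ℓ.L g) (hup : ∀ g, ℓ.L g ≤ C * g.norm)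
    (ξ : Bd N) (n : ℕ) : c * n + (c - C) / 2 ≤ G ℓ (ray ξ n) (ray ξ (n + 1)) := by
  have h1 := hlow (ray ξ n)
  have h2 := hlow (ray ξ (n + 1))
  have h3 := hup (lt (ξ.1 (ray ξ n)))
  rw [ray_norm] at h1 h2
  rw [norm_lt] at h3
  unfold G
  have e : (ray ξ n)⁻¹ * ray ξ (n + 1) = lt (ξ.1 (ray ξ n)) := by
    rw [ray, inv_mul_cancel_left]
  rw [e]
  push_cast at h2 h3
  linarith

theorem exists_big {c C : ℝ} (hc : 0 < c) (hlow : ∀ g, c * g.norm ≤ ℓ.L g)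
    (hup : ∀ g, ℓ.L g ≤ C * g.norm) (D : ℝ) : ∃ n0 : ℕ, ∀ (ξ : Bd N) (n : ℕ), n0 ≤ n →
      D < G ℓ (ray ξ n) (ray ξ (n + 1)) := by
  obtain ⟨n0, hn0⟩ := exists_nat_gt ((D - (c - C) / 2) / c)
  refine ⟨n0, fun ξ n hn => ?_⟩
  have h1 := G_ray_succ ℓ hlow hup ξ n
  rw [div_lt_iff₀ hc] at hn0
  have h2 : (n0 : ℝ) ≤ n := by exact_mod_cast hn
  nlinarith

theorem tendsto_of_const {u : ℕ → ℝ} {n0 : ℕ} (h : ∀ n, n0 ≤ n → u (n + 1) = u n) :
    Tendsto u atTop (𝓝 (u n0)) := by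
  have h1 : ∀ k, u (n0 + k) = u n0 := by
    intro k
    induction k with
    | zero => rfl
    | succ k ih => rw [← add_assoc, h _ (Nat.le_add_right _ _), ih]
  refine tendsto_const_nhds.congr' ?_
  filter_upwards [eventually_ge_atTop n0] with n hn
  obtain ⟨k, rfl⟩ := Nat.exists_eq_add_of_le hn
  exact (h1 k).symm

theorem G_ray_const (hhyp : ∀ g, g ≠ 1 → ℓ.L g < ℓ.L (g * g))
    (hfin : ∀ R : ℝ, {g | ℓ.L g ≤ R}.Finite) (g : FreeGroup (Fin N)) (ξ : Bd N) :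
    ∃ n0 : ℕ, ∀ n, n0 ≤ n → G ℓ g (ray ξ (n + 1)) = G ℓ g (ray ξ n) := by
  obtain ⟨c, hc, hlow⟩ := lower ℓ hhyp hfin
  obtain ⟨C, hC, hup⟩ := upper ℓ
  obtain ⟨n0, hn0⟩ := exists_big ℓ hc hlow hup (ℓ.L g)
  refine ⟨n0, fun n hn => ?_⟩
  exact G_iso ℓ (lt_of_le_of_lt (G_le_left ℓ g _) (hn0 ξ n hn))

theorem G_ray_ray (hhyp : ∀ g, g ≠ 1 → ℓ.L g < ℓ.L (g * g))
    (hfin : ∀ R : ℝ, {g | ℓ.L g ≤ R}.Finite) {D : ℝ} {ξ ζ : Bd N}
    (h : ∀ i j, G ℓ (ray ξ i) (ray ζ j) ≤ D) :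
    ∃ n0 : ℕ, ∀ n, n0 ≤ n →
      G ℓ (ray ξ (n + 1)) (ray ζ (n + 1)) = G ℓ (ray ξ n) (ray ζ n) := by
  obtain ⟨c, hc, hlow⟩ := lower ℓ hhyp hfin
  obtain ⟨C, hC, hup⟩ := upper ℓ
  obtain ⟨n0, hn0⟩ := exists_big ℓ hc hlow hup D
  refine ⟨n0, fun n hn => ?_⟩
  have h1 := G_iso ℓ (g := ray ξ n) (lt_of_le_of_lt (h n n) (hn0 ζ n hn))
  have h2 := G_iso ℓ (g := ray ζ (n + 1)) (h := ray ξ n) (k := ray ξ (n + 1)) (by
    rw [G_comm]
    exact lt_of_le_of_lt (h n (n + 1)) (hn0 ξ n hn))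
  rw [G_comm, h2, G_comm, h1]

end

theorem busemann_ge {A : FTree N} (hA : A.InCV) (x : A.T) {K : ℝ}
    (hK : ∀ u v : FreeGroup (Fin N), (u * v).norm = u.norm + v.norm →
      (lenFn A x).L u + (lenFn A x).L v - K ≤ (lenFn A x).L (u * v))
    {w : FreeGroup (Fin N)} {ζ : Bd N} (h : ∀ n, (w * ray ζ n).norm = w.norm + n) :
    (lenFn A x).L w - K ≤ busemann A ζ (w⁻¹ • x) x := by
  set ℓ := lenFn A x with hℓ
  have e : ∀ n : ℕ, dist (w⁻¹ • x) (ray ζ n • x) - dist x (ray ζ n • x) =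
      ℓ.L (w * ray ζ n) - ℓ.L (ray ζ n) := by
    intro n
    rw [hℓ, lenFn_L, lenFn_L, ← A.isometric w (w⁻¹ • x), smul_inv_smul, ← mul_smul]
  have e2 : ∀ n : ℕ, ℓ.L (w * ray ζ n) - ℓ.L (ray ζ n) =
      ℓ.L w - 2 * G ℓ w⁻¹ (ray ζ n) := by
    intro n
    unfold G
    rw [inv_inv, ℓ.inv]
    ring
  obtain ⟨n0, hn0⟩ := G_ray_const ℓ (hyperbolic A hA.1 x) (proper A hA x) w⁻¹ ζ
  have ht : Tendsto (fun n : ℕ => dist (w⁻¹ • x) (ray ζ n • x) - dist x (ray ζ n • x)) atTop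
      (𝓝 (dist (w⁻¹ • x) (ray ζ n0 • x) - dist x (ray ζ n0 • x))) := by
    apply tendsto_of_const (n0 := n0)
    intro n hn
    rw [e, e, e2, e2, hn0 n hn]
  unfold busemann
  rw [ht.limUnder_eq, e]
  have h1 := hK w (ray ζ n0) (by rw [h n0, ray_norm])
  linarith

theorem gromov_le {A : FTree N} (hA : A.InCV) (x : A.T) {K : ℝ}
    (hK : ∀ u v : FreeGroup (Fin N), (u * v).norm = u.norm + v.norm →
      (lenFn A x).L u + (lenFn A x).L v - K ≤ (lenFn A x).L (u * v))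
    {ξ ζ : Bd N} (h : ξ.1 1 ≠ ζ.1 1) : gromov A x ξ ζ ≤ K / 2 := by
  set ℓ := lenFn A x with hℓ
  have e : ∀ n : ℕ, (dist x (ray ξ n • x) + dist x (ray ζ n • x) -
      dist (ray ξ n • x) (ray ζ n • x)) / 2 = G ℓ (ray ξ n) (ray ζ n) := by
    intro n
    rw [hℓ, G_lenFn]
    rfl
  have h1 : ∀ i j, G ℓ (ray ξ i) (ray ζ j) ≤ K / 2 := by
    intro i j
    have := hK (ray ξ i)⁻¹ (ray ζ j) (by
      rw [join_norm h, FreeGroup.norm_inv_eq, ray_norm, ray_norm])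
    rw [ℓ.inv] at this
    unfold G
    linarith
  obtain ⟨n0, hn0⟩ := G_ray_ray ℓ (hyperbolic A hA.1 x) (proper A hA x) h1
  have ht : Tendsto (fun n : ℕ => (dist x (ray ξ n • x) + dist x (ray ζ n • x) -
      dist (ray ξ n • x) (ray ζ n • x)) / 2) atTop (𝓝 ((dist x (ray ξ n0 • x) +
        dist x (ray ζ n0 • x) - dist (ray ξ n0 • x) (ray ζ n0 • x)) / 2)) := by
    apply tendsto_of_const (n0 := n0)
    intro n hn
    rw [e, e, hn0 n hn]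
  unfold gromov
  rw [ht.limUnder_eq, e]
  exact h1 _ _

end Pool.Agent.P8H64.PS
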