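import Mathlib
import Pool.Agent.P8H64.PS.Rays

set_option autoImplicit false

/-!
# The shift on the lines through the base vertex
-/

namespace Pool.Agent.P8H64.PS

open Pool.Agent.H472R3 Pool.Agent.H67R3.FSR Filter Topology MeasureTheory
open Pool.Agent.H67R4.SR hiding Q
open scoped ENNReal NNReal

variable {N : ℕ}

/-- The shift. -/
def sh (q : Bd2 N) : Bd2 N := (lt (q.1.2.1 1))⁻¹ • q

theorem sh_fst (q : Bd2 N) : (sh q).1.1 = (lt (q.1.2.1 1))⁻¹ • q.1.1 := rfl

theorem sh_snd (q : Bd2 N) : (sh q).1.2 = (lt (q.1.2.1 1))⁻¹ • q.1.2 := rfl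

theorem sh_mem {q : Bd2 N} (hq : q ∈ U 1) : sh q ∈ U 1 := by
  rw [mem_U] at hq ⊢
  rw [sh_fst, sh_snd, Bd.smul_apply, Bd.smul_apply, inv_inv, mul_one]
  set a := q.1.2.1 1 with ha
  have h1 := (q.1.1.2 1 a).mpr hq
  rw [one_mul] at h1
  rw [h1]
  intro h2
  have h3 := q.1.2.2 1 a
  rw [one_mul] at h3
  exact (h3.mp h2.symm) ha.symm

theorem sh_iter (q : Bd2 N) (n : ℕ) : sh^[n] q = (ray q.1.2 n)⁻¹ • q := by
  induction n with
  | zero => simp [ray]
  | succ n ih =>
    rw [Function.iterate_succ_apply', ih]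
    unfold sh
    rw [smul_snd, Bd.smul_apply, inv_inv, mul_one, ← mul_smul, ← mul_inv_rev]
    rfl

theorem sh_iter_mem {q : Bd2 N} (hq : q ∈ U 1) (n : ℕ) : sh^[n] q ∈ U 1 := by
  induction n with
  | zero => exact hq
  | succ n ih =>
    rw [Function.iterate_succ_apply']
    exact sh_mem ih

theorem ray_sh (q : Bd2 N) (i j : ℕ) :
    ray q.1.2 (i + j) = ray q.1.2 i * ray (sh^[i] q).1.2 j := by
  rw [ray_add, sh_iter, smul_snd]

theorem ray_back {q : Bd2 N} (hq : q ∈ U 1) (n : ℕ) :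
    ray (sh^[n] q).1.1 n = (ray q.1.2 n)⁻¹ := by
  rw [sh_iter, smul_fst]
  exact back_ray hq n

theorem isLocallyConstant_ray (n : ℕ) : IsLocallyConstant fun ξ : Bd N => ray ξ n := by
  rw [IsLocallyConstant.iff_eventually_eq]
  exact fun ξ => ray_locally ξ n

theorem continuous_snd2 : Continuous fun q : Bd2 N => q.1.2 :=
  continuous_snd.comp continuous_subtype_val

theorem continuous_fst2 : Continuous fun q : Bd2 N => q.1.1 :=
  continuous_fst.comp continuous_subtype_val

theorem lc_ray2 (n : ℕ) : IsLocallyConstant fun q : Bd2 N => ray q.1.2 n :=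
  (isLocallyConstant_ray n).comp_continuous continuous_snd2

theorem lc_ray1 (n : ℕ) : IsLocallyConstant fun q : Bd2 N => ray q.1.1 n :=
  (isLocallyConstant_ray n).comp_continuous continuous_fst2

theorem continuous_sh : Continuous (sh : Bd2 N → Bd2 N) := by
  rw [continuous_iff_continuousAt]
  intro q
  have h1 : ∀ᶠ p : Bd2 N in 𝓝 q, p.1.2.1 1 = q.1.2.1 1 :=
    ((continuous_eval 1).comp continuous_snd2).continuousAt.eventually
      (IsOpen.mem_nhds (isOpen_discrete {q.1.2.1 1}) rfl)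
  refine ContinuousAt.congr (f := fun p : Bd2 N => (lt (q.1.2.1 1))⁻¹ • p)
    (continuous_smul_bd2 _).continuousAt ?_
  filter_upwards [h1] with p hp
  unfold sh
  rw [hp]

theorem measurable_sh : Measurable (sh : Bd2 N → Bd2 N) := continuous_sh.measurable

theorem sum_fib (ν : Measure (Bd2 N)) (f : Bd2 N → Lt N)
    (hf : ∀ a, MeasurableSet (f ⁻¹' {a})) (B : Set (Bd2 N)) :
    ν B = ∑ a, ν (f ⁻¹' {a} ∩ B) := by
  have h := sum_measure_preimage_singleton (μ := ν.restrict B) Finset.univ (f := f)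
    (fun a _ => hf a)
  simp only [Finset.coe_univ, Set.preimage_univ, Measure.restrict_apply_univ] at h
  rw [← h]
  exact Finset.sum_congr rfl fun a _ => Measure.restrict_apply (hf a)

theorem mp_sh (μ : Current N) :
    MeasurePreserving sh (μ.meas.restrict (U 1)) (μ.meas.restrict (U 1)) := by
  refine ⟨measurable_sh, ?_⟩
  ext A hA
  have hU : MeasurableSet (U 1 : Set (Bd2 N)) := (isOpen_U 1).measurableSet
  rw [Measure.map_apply measurable_sh hA, Measure.restrict_apply (measurable_sh hA),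
    Measure.restrict_apply hA]
  have m2 : ∀ a : Lt N, MeasurableSet ((fun q : Bd2 N => q.1.2.1 1) ⁻¹' {a}) := fun a =>
    (open_snd 1 {a}).measurableSet
  have m1 : ∀ a : Lt N, MeasurableSet ((fun q : Bd2 N => q.1.1.1 1) ⁻¹' {inv' a}) := fun a =>
    (open_fst 1 {inv' a}).measurableSet
  rw [sum_fib μ.meas _ m2, sum_fib μ.meas (fun q : Bd2 N => inv' (q.1.1.1 1)) (fun a => by
    have : (fun q : Bd2 N => inv' (q.1.1.1 1)) ⁻¹' {a} =
        (fun q : Bd2 N => q.1.1.1 1) ⁻¹' {inv' a} := by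
      ext q
      simp only [Set.mem_preimage, Set.mem_singleton_iff]
      constructor
      · intro h; rw [← h, inv'_inv']
      · intro h; rw [h, inv'_inv']
    rw [this]
    exact m1 a) (A ∩ U 1)]
  refine Finset.sum_congr rfl fun a _ => ?_
  rw [← inv_pre μ (lt a) ((m2 a).inter ((measurable_sh hA).inter hU))]
  congr 1
  ext q
  simp only [Set.mem_inter_iff, Set.mem_preimage, Set.mem_singleton_iff, Set.mem_ofPred_eq]
  have key1 : (lt a • q).1.2.1 1 = a ↔ q.1.2.1 1 ≠ inv' a := by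
    rw [smul_snd, Bd.smul_apply, mul_one, ← lt_inv']
    have := q.1.2.2 1 (inv' a)
    rw [one_mul, inv'_inv'] at this
    exact this
  have key2 : (lt a • q).1.1.1 1 = a ↔ q.1.1.1 1 ≠ inv' a := by
    rw [smul_fst, Bd.smul_apply, mul_one, ← lt_inv']
    have := q.1.1.2 1 (inv' a)
    rw [one_mul, inv'_inv'] at this
    exact this
  have key3 : inv' (q.1.1.1 1) = a ↔ q.1.1.1 1 = inv' a := by
    constructor
    · intro h; rw [← h, inv'_inv']
    · intro h; rw [h, inv'_inv']
  rw [key3]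
  constructor
  · rintro ⟨h1, h2, h3⟩
    have h4 : sh (lt a • q) = q := by
      unfold sh
      rw [h1, inv_smul_smul]
    rw [h4] at h2
    rw [mem_U, h1, Ne, key2, not_not] at h3
    refine ⟨h3, h2, ?_⟩
    rw [mem_U, h3]
    exact (key1.mp h1).symm
  · rintro ⟨h1, h2, h3⟩
    rw [mem_U, h1] at h3
    have h4 := key1.mpr h3.symm
    have h5 : sh (lt a • q) = q := by
      unfold sh
      rw [h4, inv_smul_smul]
    refine ⟨h4, by rw [h5]; exact h2, ?_⟩
    rw [mem_U, h4, Ne, key2, not_not]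
    exact h1

theorem integral_sh (μ : Current N) {f : Bd2 N → ℝ} (hf : Continuous f) (n : ℕ) :
    ∫ q in U 1, f (sh^[n] q) ∂μ.meas = ∫ q in U 1, f q ∂μ.meas := by
  have h := (mp_sh μ).iterate n
  rw [← h.map_eq, integral_map h.measurable.aemeasurable hf.aestronglyMeasurable, h.map_eq]

/-- The lines which begin with `w`. -/
def cyl (n : ℕ) (w : FreeGroup (Fin N)) : Set (Bd2 N) := {q | q ∈ U 1 ∧ ray q.1.2 n = w}

theorem isOpen_cyl (n : ℕ) (w : FreeGroup (Fin N)) : IsOpen (cyl n w) :=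
  (isOpen_U 1).inter ((lc_ray2 n).isOpen_fiber w)

theorem meas_cyl (n : ℕ) (w : FreeGroup (Fin N)) : MeasurableSet (cyl n w) :=
  (isOpen_cyl n w).measurableSet

theorem finite_norm_eq (n : ℕ) : {w : FreeGroup (Fin N) | w.norm = n}.Finite :=
  (finite_norm_le n).subset fun _ hw => le_of_eq hw

/-- The elements of length `n`. -/
noncomputable def Sn (N n : ℕ) : Finset (FreeGroup (Fin N)) := (finite_norm_eq (N := N) n).toFinset

theorem mem_Sn {n : ℕ} {w : FreeGroup (Fin N)} : w ∈ Sn N n ↔ w.norm = n := by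
  unfold Sn
  rw [Set.Finite.mem_toFinset]
  rfl

theorem U_eq (n : ℕ) : (U 1 : Set (Bd2 N)) = ⋃ w ∈ Sn N n, cyl n w := by
  ext q
  rw [Set.mem_iUnion₂]
  constructor
  · intro hq
    exact ⟨ray q.1.2 n, mem_Sn.mpr (ray_norm _ _), hq, rfl⟩
  · rintro ⟨w, _, hq, _⟩
    exact hq

theorem U_lt (μ : Current N) : μ.meas (U 1) < ∞ := μ.finite _ isCompact_U1

theorem cyl_lt (μ : Current N) (n : ℕ) (w : FreeGroup (Fin N)) : μ.meas (cyl n w) < ∞ :=
  lt_of_le_of_lt (measure_mono fun _ h => h.1) (U_lt μ)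

theorem integrableOn_cyl (μ : Current N) (n : ℕ) (F : FreeGroup (Fin N) → ℝ)
    (w : FreeGroup (Fin N)) : IntegrableOn (fun q : Bd2 N => F (ray q.1.2 n)) (cyl n w) μ.meas := by
  have h : IntegrableOn (fun _ : Bd2 N => F w) (cyl n w) μ.meas :=
    integrableOn_const (cyl_lt μ n w).ne
  refine h.congr_fun ?_ (meas_cyl n w)
  intro q hq
  simp only
  rw [hq.2]

theorem integrableOn_ray (μ : Current N) (n : ℕ) (F : FreeGroup (Fin N) → ℝ) :
    IntegrableOn (fun q : Bd2 N => F (ray q.1.2 n)) (U 1) μ.meas := by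
  rw [U_eq n, integrableOn_finset_iUnion]
  exact fun w _ => integrableOn_cyl μ n F w

theorem int_ray (μ : Current N) (n : ℕ) (F : FreeGroup (Fin N) → ℝ) :
    ∫ q in U 1, F (ray q.1.2 n) ∂μ.meas = ∑ w ∈ Sn N n, F w * μ.meas.real (cyl n w) := by
  rw [U_eq n, integral_biUnion_finset (Sn N n) (fun w _ => meas_cyl n w)]
  · refine Finset.sum_congr rfl fun w _ => ?_
    have : ∫ q in cyl n w, F (ray q.1.2 n) ∂μ.meas = ∫ _ in cyl n w, F w ∂μ.meas := by
      apply setIntegral_congr_fun (meas_cyl n w)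
      intro q hq
      simp only
      rw [hq.2]
    rw [this, setIntegral_const, smul_eq_mul, mul_comm]
  · intro u _ v _ huv
    rw [Function.onFun, Set.disjoint_left]
    rintro q ⟨_, h1⟩ ⟨_, h2⟩
    exact huv (h1.symm.trans h2)
  · exact fun w _ => integrableOn_cyl μ n F w

theorem continuous_F (n : ℕ) (F : FreeGroup (Fin N) → ℝ) :
    Continuous fun q : Bd2 N => F (ray q.1.2 n) := ((lc_ray2 n).comp F).continuous

end Pool.Agent.P8H64.PS
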