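import Mathlib
import Pool.Agent.P8H64.PS.Shift

set_option autoImplicit false

/-!
# Averages of the length over the initial pieces of lines
-/

namespace Pool.Agent.P8H64.PS

open Pool.Agent.H472R3 Pool.Agent.H67R3.FSR Filter Topology MeasureTheory
open Pool.Agent.H67R4.SR hiding Q
open scoped ENNReal NNReal

variable {N : ℕ}

/-- The average of the length of the initial pieces of length `n`. -/
noncomputable def av (ℓ : LenFn N) (μ : Current N) (n : ℕ) : ℝ :=
  ∫ q in U 1, ℓ.L (ray q.1.2 n) ∂μ.meas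

/-- The mass. -/
noncomputable def ms (μ : Current N) : ℝ := μ.meas.real (U 1)

theorem ms_nonneg (μ : Current N) : 0 ≤ ms μ := measureReal_nonneg

theorem av_nonneg (ℓ : LenFn N) (μ : Current N) (n : ℕ) : 0 ≤ av ℓ μ n :=
  integral_nonneg fun _ => L_nonneg _ _

theorem av_split (ℓ : LenFn N) (μ : Current N) (i j : ℕ) :
    av ℓ μ i + av ℓ μ j =
      ∫ q in U 1, (ℓ.L (ray q.1.2 i) + ℓ.L (ray (sh^[i] q).1.2 j)) ∂μ.meas := by
  have h1 : IntegrableOn (fun q : Bd2 N => ℓ.L (ray (sh^[i] q).1.2 j)) (U 1) μ.meas := by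
    have := ((mp_sh μ).iterate i).integrable_comp
      (continuous_F (N := N) j ℓ.L).aestronglyMeasurable
    exact this.mpr (integrableOn_ray μ j ℓ.L)
  rw [integral_add (integrableOn_ray μ i ℓ.L) h1,
    integral_sh μ (continuous_F (N := N) j ℓ.L) i]
  rfl

theorem integrable_shift (ℓ : LenFn N) (μ : Current N) (i j : ℕ) :
    IntegrableOn (fun q : Bd2 N => ℓ.L (ray q.1.2 i) + ℓ.L (ray (sh^[i] q).1.2 j)) (U 1)
      μ.meas := by
  have h1 : IntegrableOn (fun q : Bd2 N => ℓ.L (ray (sh^[i] q).1.2 j)) (U 1) μ.meas := by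
    have := ((mp_sh μ).iterate i).integrable_comp
      (continuous_F (N := N) j ℓ.L).aestronglyMeasurable
    exact this.mpr (integrableOn_ray μ j ℓ.L)
  exact (integrableOn_ray μ i ℓ.L).add h1

theorem av_add_le (ℓ : LenFn N) (μ : Current N) (i j : ℕ) :
    av ℓ μ (i + j) ≤ av ℓ μ i + av ℓ μ j := by
  rw [av_split]
  apply setIntegral_mono (integrableOn_ray μ _ ℓ.L) (integrable_shift ℓ μ i j)
  intro q
  simp only
  rw [ray_sh]
  exact tri ℓ _ _

theorem le_av_add (ℓ : LenFn N) (μ : Current N) {K : ℝ}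
    (hK : ∀ u v : FreeGroup (Fin N), (u * v).norm = u.norm + v.norm →
      ℓ.L u + ℓ.L v - K ≤ ℓ.L (u * v)) (i j : ℕ) :
    av ℓ μ i + av ℓ μ j - K * ms μ ≤ av ℓ μ (i + j) := by
  rw [av_split]
  have hc : IntegrableOn (fun _ : Bd2 N => K) (U 1) μ.meas := integrableOn_const (U_lt μ).ne
  have e : K * ms μ = ∫ _ in U 1, K ∂μ.meas := by
    rw [setIntegral_const, smul_eq_mul, mul_comm]
    rfl
  rw [e, ← integral_sub (integrable_shift ℓ μ i j) hc]
  apply setIntegral_mono ((integrable_shift ℓ μ i j).sub hc) (integrableOn_ray μ _ ℓ.L)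
  intro q
  simp only
  rw [ray_sh]
  apply hK
  rw [← ray_sh, ray_norm, ray_norm, ray_norm]

theorem av_zero (ℓ : LenFn N) (μ : Current N) : av ℓ μ 0 = 0 := by
  unfold av
  simp [ray, ℓ.one]

theorem av_mul_le (ℓ : LenFn N) (μ : Current N) (k n : ℕ) : av ℓ μ (k * n) ≤ k * av ℓ μ n := by
  induction k with
  | zero => simp [av_zero]
  | succ k ih =>
    rw [Nat.succ_mul]
    have := av_add_le ℓ μ (k * n) n
    push_cast
    linarith

theorem le_av_mul (ℓ : LenFn N) (μ : Current N) {K : ℝ}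
    (hK : ∀ u v : FreeGroup (Fin N), (u * v).norm = u.norm + v.norm →
      ℓ.L u + ℓ.L v - K ≤ ℓ.L (u * v)) (k n : ℕ) :
    k * av ℓ μ n - k * (K * ms μ) ≤ av ℓ μ (k * n) := by
  induction k with
  | zero => simp [av_zero]
  | succ k ih =>
    rw [Nat.succ_mul]
    have := le_av_add ℓ μ hK (k * n) n
    push_cast
    linarith

/-- The averages are close to the multiples of the intersection number. -/
def Good (c : Current N → ℝ) (ℓ : LenFn N) (K : ℝ) (ν : Current N) : Prop :=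
  ∀ n : ℕ, 2 * n * c ν ≤ av ℓ ν n ∧ av ℓ ν n ≤ 2 * n * c ν + K * ms ν

theorem av_add (ℓ : LenFn N) (μ ν : Current N) (n : ℕ) :
    av ℓ (μ + ν) n = av ℓ μ n + av ℓ ν n := by
  unfold av
  rw [Current.add_meas, Measure.restrict_add,
    integral_add_measure (integrableOn_ray μ n ℓ.L) (integrableOn_ray ν n ℓ.L)]

theorem av_smul (ℓ : LenFn N) (c : ℝ≥0) (ν : Current N) (n : ℕ) :
    av ℓ (c • ν) n = c * av ℓ ν n := by
  unfold av
  rw [Current.smul_meas, Measure.restrict_smul, integral_smul_nnreal_measure]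
  rfl

theorem ms_add (μ ν : Current N) : ms (μ + ν) = ms μ + ms ν := by
  unfold ms
  rw [Current.add_meas]
  exact measureReal_add_apply (U_lt μ).ne (U_lt ν).ne

theorem ms_smul (c : ℝ≥0) (ν : Current N) : ms (c • ν) = c * ms ν := by
  unfold ms
  rw [Current.smul_meas, measureReal_def, Measure.smul_apply, ENNReal.smul_def, smul_eq_mul,
    ENNReal.toReal_mul]
  rfl

theorem Good.add {c : Current N → ℝ} {ℓ : LenFn N} {K : ℝ}
    (hc : ∀ μ ν, c (μ + ν) = c μ + c ν) {μ ν : Current N} (hμ : Good c ℓ K μ)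
    (hν : Good c ℓ K ν) : Good c ℓ K (μ + ν) := by
  intro n
  rw [av_add, ms_add, hc]
  have h1 := hμ n
  have h2 := hν n
  constructor
  · linarith [h1.1, h2.1]
  · linarith [h1.2, h2.2]

theorem Good.smul {c : Current N → ℝ} {ℓ : LenFn N} {K : ℝ}
    (hc : ∀ (r : ℝ≥0) μ, c (r • μ) = r * c μ) {ν : Current N} (r : ℝ≥0)
    (hν : Good c ℓ K ν) : Good c ℓ K (r • ν) := by
  intro n
  rw [av_smul, ms_smul, hc]
  have h1 := hν n
  have hr : (0 : ℝ) ≤ r := r.2
  constructor
  · have := mul_le_mul_of_nonneg_left h1.1 hr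
    linarith
  · have := mul_le_mul_of_nonneg_left h1.2 hr
    linarith

/-- Prefix and suffix. -/
def pre (w : FreeGroup (Fin N)) : FreeGroup (Fin N) := FreeGroup.mk w.toWord.dropLast

def suf (w : FreeGroup (Fin N)) : FreeGroup (Fin N) := FreeGroup.mk w.toWord.tail

theorem word_mul {x y : FreeGroup (Fin N)} (h : (x * y).norm = x.norm + y.norm) :
    (x * y).toWord = x.toWord ++ y.toWord := by
  apply (FreeGroup.toWord_mul_sublist x y).eq_of_length
  rw [List.length_append]
  exact h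

theorem pre_ray (ξ : Bd N) (n : ℕ) : pre (ray ξ (n + 1)) = ray ξ n := by
  unfold pre
  rw [ray_word, List.dropLast_concat, FreeGroup.mk_toWord]

theorem suf_ray (q : Bd2 N) (n : ℕ) : suf (ray q.1.2 (n + 1)) = ray (sh q).1.2 n := by
  have h := ray_sh q 1 n
  rw [add_comm 1 n] at h
  have h1 : (ray q.1.2 1 * ray (sh^[1] q).1.2 n).norm =
      (ray q.1.2 1).norm + (ray (sh^[1] q).1.2 n).norm := by
    rw [← h, ray_norm, ray_norm, ray_norm, add_comm]
  unfold suf
  rw [h, word_mul h1, ray_word]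
  simp only [ray, FreeGroup.toWord_one, List.nil_append, List.cons_append, List.tail_cons,
    Function.iterate_one, FreeGroup.mk_toWord]

theorem sum_filter_eq (μ : Current N) (n : ℕ) (p : FreeGroup (Fin N) → Prop) [DecidablePred p] :
    ∑ w ∈ (Sn N n).filter p, μ.meas.real (cyl n w) =
      ∫ q in U 1, (if p (ray q.1.2 n) then (1 : ℝ) else 0) ∂μ.meas := by
  rw [int_ray μ n (fun w => if p w then (1 : ℝ) else 0), Finset.sum_filter]
  refine Finset.sum_congr rfl fun w _ => ?_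
  split_ifs <;> simp

theorem kirchhoff [DecidableEq (FreeGroup (Fin N))] (μ : Current N) (n : ℕ)
    (v : FreeGroup (Fin N)) :
    ∑ w ∈ (Sn N (n + 1)).filter (fun w => pre w = v), μ.meas.real (cyl (n + 1) w) =
      ∑ w ∈ (Sn N (n + 1)).filter (fun w => suf w = v), μ.meas.real (cyl (n + 1) w) := by
  rw [sum_filter_eq, sum_filter_eq]
  simp only [pre_ray, suf_ray]
  exact (integral_sh μ (continuous_F (N := N) n (fun w => if w = v then (1 : ℝ) else 0)) 1).symm

theorem real_cyl_eq [DecidableEq (FreeGroup (Fin N))] (μ : Current N) (n : ℕ)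
    (w : FreeGroup (Fin N)) : μ.meas.real (cyl n w) =
      ∫ q in U 1, (if ray q.1.2 n = w then (1 : ℝ) else 0) ∂μ.meas := by
  rw [int_ray μ n (fun v => if v = w then (1 : ℝ) else 0)]
  by_cases hw : w ∈ Sn N n
  · rw [Finset.sum_eq_single w]
    · simp
    · intro b _ hb
      simp [hb]
    · intro h
      exact absurd hw h
  · have h1 : cyl n w = (∅ : Set (Bd2 N)) := by
      ext q
      simp only [Set.mem_empty_iff_false, iff_false]
      rintro ⟨_, h⟩
      exact hw (mem_Sn.mpr (by rw [← h, ray_norm]))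
    rw [h1, measureReal_empty]
    symm
    apply Finset.sum_eq_zero
    intro b hb
    rw [if_neg (by rintro rfl; exact hw hb), zero_mul]

theorem integral_flip (μ : Current N) {f : Bd2 N → ℝ} (hf : Continuous f) :
    ∫ q in U 1, f (flip2 q) ∂μ.meas = ∫ q in U 1, f q ∂μ.meas := by
  have h : MeasurePreserving flip2 μ.meas μ.meas := ⟨measurable_flip2, μ.flip⟩
  have h2 := h.restrict_preimage (s := (U 1 : Set (Bd2 N))) (isOpen_U 1).measurableSet
  have e : flip2 ⁻¹' (U 1 : Set (Bd2 N)) = U 1 := by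
    ext q
    exact ne_comm
  rw [e] at h2
  rw [← h2.map_eq, integral_map h2.measurable.aemeasurable hf.aestronglyMeasurable, h2.map_eq]

theorem real_cyl_inv (μ : Current N) (n : ℕ) (w : FreeGroup (Fin N)) :
    μ.meas.real (cyl n w⁻¹) = μ.meas.real (cyl n w) := by
  classical
  rw [real_cyl_eq μ n w⁻¹, real_cyl_eq μ n w]
  rw [← integral_flip μ (continuous_F (N := N) n (fun v => if v = w⁻¹ then (1 : ℝ) else 0))]
  have hc : Continuous fun q : Bd2 N => if ray q.1.1 n = w⁻¹ then (1 : ℝ) else 0 :=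
    ((lc_ray1 n).comp (fun v => if v = w⁻¹ then (1 : ℝ) else 0)).continuous
  rw [show (∫ q in U 1, (if ray (flip2 q).1.2 n = w⁻¹ then (1 : ℝ) else 0) ∂μ.meas) =
    ∫ q in U 1, (if ray q.1.1 n = w⁻¹ then (1 : ℝ) else 0) ∂μ.meas from rfl]
  rw [← integral_sh μ hc n]
  apply setIntegral_congr_fun (isOpen_U 1).measurableSet
  intro q hq
  simp only
  rw [ray_back hq]
  simp only [inv_inj]

/-- The prefix of length `k`. -/
def tk (k : ℕ) (w : FreeGroup (Fin N)) : FreeGroup (Fin N) := FreeGroup.mk (w.toWord.take k)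

theorem tk_ray (ξ : Bd N) {k n : ℕ} (h : k ≤ n) : tk k (ray ξ n) = ray ξ k := by
  obtain ⟨j, rfl⟩ := Nat.exists_eq_add_of_le h
  obtain ⟨t, ht⟩ := ray_pfx ξ k j
  unfold tk
  rw [ht, List.take_left' (ray_norm ξ k), FreeGroup.mk_toWord]

/-- Integrals of functions which depend on the window `[-k, k]`. -/
theorem int_window (μ : Current N) (k : ℕ) (Φ : FreeGroup (Fin N) → FreeGroup (Fin N) → ℝ) :
    ∫ q in U 1, Φ (ray q.1.1 k) (ray q.1.2 k) ∂μ.meas =
      ∑ w ∈ Sn N (k + k), Φ (tk k w)⁻¹ ((tk k w)⁻¹ * w) * μ.meas.real (cyl (k + k) w) := by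
  rw [← int_ray μ (k + k) (fun w => Φ (tk k w)⁻¹ ((tk k w)⁻¹ * w))]
  have hc : Continuous fun q : Bd2 N => Φ (ray q.1.1 k) (ray q.1.2 k) := by
    have h1 : IsLocallyConstant fun q : Bd2 N => Φ (ray q.1.1 k) (ray q.1.2 k) := by
      rw [IsLocallyConstant.iff_eventually_eq]
      intro q
      have e1 := (IsLocallyConstant.iff_eventually_eq _).mp (lc_ray1 (N := N) k) q
      have e2 := (IsLocallyConstant.iff_eventually_eq _).mp (lc_ray2 (N := N) k) q
      filter_upwards [e1, e2] with p h1 h2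
      rw [h1, h2]
    exact h1.continuous
  rw [← integral_sh μ hc k]
  apply setIntegral_congr_fun (isOpen_U 1).measurableSet
  intro q hq
  simp only
  rw [ray_back hq, tk_ray _ (Nat.le_add_right k k), ray_sh, inv_mul_cancel_left]

/-- Two currents agree at level `n`. -/
def Agree (n : ℕ) (μ ν : Current N) : Prop :=
  ∀ w ∈ Sn N n, μ.meas.real (cyl n w) = ν.meas.real (cyl n w)

theorem Agree.int {n k : ℕ} {μ ν : Current N} (h : Agree n μ ν) (hk : k ≤ n)
    (F : FreeGroup (Fin N) → ℝ) :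
    ∫ q in U 1, F (ray q.1.2 k) ∂μ.meas = ∫ q in U 1, F (ray q.1.2 k) ∂ν.meas := by
  have e : ∀ μ : Current N, ∫ q in U 1, F (ray q.1.2 k) ∂μ.meas =
      ∑ w ∈ Sn N n, F (tk k w) * μ.meas.real (cyl n w) := by
    intro μ
    rw [← int_ray μ n (fun w => F (tk k w))]
    simp only [tk_ray _ hk]
  rw [e, e]
  exact Finset.sum_congr rfl fun w hw => by rw [h w hw]

theorem Agree.mono {n k : ℕ} {μ ν : Current N} (h : Agree n μ ν) (hk : k ≤ n) :
    Agree k μ ν := by
  classical
  intro w _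
  rw [real_cyl_eq, real_cyl_eq]
  exact h.int hk (fun v => if v = w then (1 : ℝ) else 0)

theorem Agree.ms {n : ℕ} {μ ν : Current N} (h : Agree n μ ν) : ms μ = ms ν := by
  have := h.int (Nat.zero_le n) (fun _ => (1 : ℝ))
  simp only [setIntegral_const, smul_eq_mul, mul_one] at this
  exact this

theorem Agree.av {n k : ℕ} {μ ν : Current N} (h : Agree n μ ν) (hk : k ≤ n) (ℓ : LenFn N) :
    av ℓ μ k = av ℓ ν k := h.int hk ℓ.L

theorem Agree.window {k : ℕ} {μ ν : Current N} (h : Agree (k + k) μ ν)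
    (Φ : FreeGroup (Fin N) → FreeGroup (Fin N) → ℝ) :
    ∫ q in U 1, Φ (ray q.1.1 k) (ray q.1.2 k) ∂μ.meas =
      ∫ q in U 1, Φ (ray q.1.1 k) (ray q.1.2 k) ∂ν.meas := by
  rw [int_window, int_window]
  exact Finset.sum_congr rfl fun w hw => by rw [h w hw]

end Pool.Agent.P8H64.PS
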