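import Mathlib
import Pool.Agent.P8H64.PS.Avg

set_option autoImplicit false

/-!
# Counting currents of periodic words
-/

namespace Pool.Agent.P8H64.PS

open Pool.Agent.H472R3 Pool.Agent.H67R3.FSR Filter Topology MeasureTheory
open Pool.Agent.H67R4.SR hiding Q
open scoped ENNReal NNReal

variable {N : ℕ}

/-- The initial words of a sequence of letters. -/
def wl (x : ℕ → Lt N) (n : ℕ) : List (Lt N) := (List.range n).map x

def W (x : ℕ → Lt N) (n : ℕ) : FreeGroup (Fin N) := FreeGroup.mk (wl x n)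

theorem wl_length (x : ℕ → Lt N) (n : ℕ) : (wl x n).length = n := by simp [wl]

theorem wl_succ (x : ℕ → Lt N) (n : ℕ) : wl x (n + 1) = wl x n ++ [x n] := by
  simp [wl, List.range_succ]

theorem wl_add (x : ℕ → Lt N) (m n : ℕ) :
    wl x (m + n) = wl x m ++ wl (fun j => x (m + j)) n := by
  simp [wl, List.range_add, Function.comp_def]

theorem wl_red {x : ℕ → Lt N} (hx : ∀ n, x (n + 1) ≠ inv' (x n)) (n : ℕ) :
    FreeGroup.IsReduced (wl x n) := by
  induction n with
  | zero => simp [wl, FreeGroup.IsReduced]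
  | succ n ih =>
    rw [wl_succ]
    unfold FreeGroup.IsReduced
    rw [List.isChain_append]
    refine ⟨ih, by simp, ?_⟩
    intro a ha b hb
    simp only [List.head?_cons, Option.mem_def, Option.some.injEq] at hb
    subst hb
    rcases n with _ | n
    · simp [wl] at ha
    · rw [wl_succ] at ha
      simp only [List.getLast?_append, List.getLast?_singleton, Option.some_or, Option.mem_def,
        Option.some.injEq] at ha
      subst ha
      rw [reduced_iff]
      exact hx n

theorem W_add (x : ℕ → Lt N) (m n : ℕ) : W x (m + n) = W x m * W (fun j => x (m + j)) n := by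
  unfold W
  rw [wl_add, ← FreeGroup.mul_mk]

theorem W_word {x : ℕ → Lt N} (hx : ∀ n, x (n + 1) ≠ inv' (x n)) (n : ℕ) :
    (W x n).toWord = wl x n := toWord_mk_red (wl_red hx n)

theorem W_norm {x : ℕ → Lt N} (hx : ∀ n, x (n + 1) ≠ inv' (x n)) (n : ℕ) :
    (W x n).norm = n := by
  unfold FreeGroup.norm
  rw [W_word hx, wl_length]

section

variable {x : ℕ → Lt N} {p : ℕ}

theorem W_mul (hper : ∀ n, x (p + n) = x n) (k : ℕ) : W x (p * k) = (W x p) ^ k := by
  induction k with
  | zero => simp [W, wl, FreeGroup.one_eq_mk]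
  | succ k ih =>
    rw [Nat.mul_succ, add_comm, W_add, pow_succ', ← ih]
    simp only [hper]

theorem conv_mul_right {u : ℕ → FreeGroup (Fin N)} {ξ : Bd N} (h : Conv u ξ)
    (hu : Tendsto (fun n => (u n).norm) atTop atTop) (y : FreeGroup (Fin N)) :
    Conv (fun n => u n * y) ξ := by
  intro v
  have h1 := (tendsto_atTop.mp hu (v.norm + y.norm + 1))
  filter_upwards [h v, h1] with n hn h2
  rw [← hn]
  have h3 : y.norm < (v⁻¹ * u n).norm := by
    have := FreeGroup.norm_mul_le v (v⁻¹ * u n)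
    rw [mul_inv_cancel_left] at this
    omega
  have := head_close (x := v⁻¹ * u n) (y := v⁻¹ * (u n * y)) (by
    have e : (v⁻¹ * u n)⁻¹ * (v⁻¹ * (u n * y)) = y := by group
    rw [e]
    exact h3)
  exact this

theorem conv_comm {L : List (Lt N)} (hne : L ≠ []) (h : FreeGroup.IsReduced (L ++ L)) {ζ : Bd N}
    (hζ : Conv (fun n => (FreeGroup.mk L) ^ n) ζ) {y : FreeGroup (Fin N)}
    (hy : Commute y (FreeGroup.mk L)) : y • ζ = ζ := by
  have hn : ∀ n, ((FreeGroup.mk L : FreeGroup (Fin N)) ^ n).norm = n * L.length := by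
    intro n
    unfold FreeGroup.norm
    rw [toWord_pow_mk h, List.length_flatten, List.map_replicate, List.sum_replicate, smul_eq_mul]
  have ht : Tendsto (fun n => ((FreeGroup.mk L : FreeGroup (Fin N)) ^ n).norm) atTop atTop := by
    simp only [hn]
    rw [tendsto_atTop_atTop]
    intro b
    refine ⟨b, fun n hn => ?_⟩
    have : 1 ≤ L.length := List.length_pos_iff.mpr hne
    nlinarith
  have h1 := hζ.smul y
  have h2 := conv_mul_right hζ ht y
  have e : (fun n => y * (FreeGroup.mk L) ^ n) = fun n => (FreeGroup.mk L) ^ n * y := by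
    funext n
    exact (hy.pow_right n).eq
  rw [e] at h1
  exact h1.unique h2

/-- The line of a periodic sequence. -/
structure PLine (x : ℕ → Lt N) (p : ℕ) (q : Bd2 N) : Prop where
  mem : q ∈ U 1
  fix : W x p • q = q
  rays : ∀ n, ray q.1.2 n = W x n
  first : q.1.1.1 1 ≠ x 0
  comm : ∀ y : FreeGroup (Fin N), Commute y (W x p) → y • q = q

theorem wl_twice (hper : ∀ n, x (p + n) = x n) : wl x p ++ wl x p = wl x (p + p) := by
  rw [wl_add]
  simp only [hper]

theorem exists_line (hp : 0 < p) (hx : ∀ n, x (n + 1) ≠ inv' (x n))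
    (hper : ∀ n, x (p + n) = x n) : ∃ q : Bd2 N, PLine x p q := by
  have hne : wl x p ≠ [] := by
    intro h
    have := congrArg List.length h
    rw [wl_length] at this
    simp at this
    omega
  have hred2 : FreeGroup.IsReduced (wl x p ++ wl x p) := by
    rw [wl_twice hper]
    exact wl_red hx _
  obtain ⟨ζ, hζ⟩ := conv_pow hne hred2
  have hinv : FreeGroup.IsReduced (FreeGroup.invRev (wl x p) ++ FreeGroup.invRev (wl x p)) := by
    rw [← invRev_append]
    exact invRev_red hred2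
  have hne' : FreeGroup.invRev (wl x p) ≠ [] := by
    intro hn
    have := congrArg List.length hn
    rw [FreeGroup.invRev_length] at this
    exact hne (List.length_eq_zero_iff.mp this)
  obtain ⟨ξ, hξ⟩ := conv_pow hne' hinv
  obtain ⟨p', rfl⟩ : ∃ p', p = p' + 1 := ⟨p - 1, by omega⟩
  have a1 : ∀ i < p' + 1, ζ.1 (W x i) = x i := by
    intro i hi
    obtain ⟨k, hk⟩ := Nat.exists_eq_add_of_le (show i + 1 ≤ p' + 1 from hi)
    refine conv_along hred2 (P := wl x i) (c := x i) (S := wl (fun j => x (i + 1 + j)) k) ?_ hζ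
    rw [hk, wl_add, wl_succ, List.append_assoc]
    rfl
  have a2 : ξ.1 1 = inv' (x p') := by
    have e : FreeGroup.invRev (wl x (p' + 1)) =
        [] ++ inv' (x p') :: FreeGroup.invRev (wl x p') := by
      rw [wl_succ, invRev_append]
      rfl
    exact conv_along hinv e hξ
  have a3 : ζ.1 1 = x 0 := a1 0 (by omega)
  have a4 : x 0 = x (p' + 1) := (hper 0).symm
  have hne2 : ξ.1 1 ≠ ζ.1 1 := by
    rw [a2, a3, a4]
    exact (hx p').symm
  have f1 : W x (p' + 1) • ζ = ζ := conv_fixed hζ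
  have f2 : W x (p' + 1) • ξ = ξ := by
    have := conv_fixed hξ
    rw [← FreeGroup.inv_mk, inv_smul_eq_iff] at this
    exact this.symm
  have hr1 : ∀ n, n ≤ p' + 1 → ray ζ n = W x n := by
    intro n
    induction n with
    | zero => intro _; rfl
    | succ n ih =>
      intro hn
      rw [ray, ih (by omega), a1 n (by omega)]
      unfold W
      rw [wl_succ, ← FreeGroup.mul_mk]
      rfl
  have hr : ∀ n, ray ζ n = W x n := by
    intro n
    induction n using Nat.strong_induction_on with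
    | _ n ih =>
      by_cases hn : n ≤ p' + 1
      · exact hr1 n hn
      · obtain ⟨m, hm⟩ := Nat.exists_eq_add_of_le (not_le.mp hn).le
        subst hm
        rw [ray_add, hr1 _ le_rfl, inv_smul_eq_iff.mpr f1.symm, ih m (by omega),
          W_add x (p' + 1) m]
        simp only [hper]
  refine ⟨⟨(ξ, ζ), fun h => hne2 (congrArg (fun η : Bd N => η.1 1) h)⟩, hne2, Subtype.ext (Prod.ext f2 f1), hr, ?_, ?_⟩
  · rw [← a3]
    exact hne2
  · intro y hy
    apply Subtype.ext
    refine Prod.ext ?_ ?_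
    · apply conv_comm hne' hinv hξ
      rw [← FreeGroup.inv_mk]
      exact hy.inv_right
    · exact conv_comm hne hred2 hζ hy

end

namespace PLine

variable {x : ℕ → Lt N} {p : ℕ} {q : Bd2 N}

theorem snd_one (h : PLine x p q) : q.1.2.1 1 = x 0 := by
  have h1 := h.rays 1
  have h2 := congrArg FreeGroup.toWord h1
  rw [ray_word] at h2
  simp only [ray, FreeGroup.toWord_one, List.nil_append] at h2
  have h3 : (W x 1).toWord = [x 0] := by
    unfold W wl
    exact toWord_mk_red (by simp [FreeGroup.IsReduced])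
  rw [h3] at h2
  simpa using h2

theorem shift (h : PLine x p q) (i n : ℕ) :
    ray (sh^[i] q).1.2 n = W (fun j => x (i + j)) n := by
  have h1 := ray_sh q i n
  rw [h.rays, h.rays, W_add] at h1
  exact (mul_left_cancel h1).symm

theorem fix_inv (h : PLine x p q) : (W x p)⁻¹ • q = q := by
  rw [inv_smul_eq_iff, h.fix]

theorem period (h : PLine x p q) : sh^[p] q = q := by
  rw [sh_iter, h.rays, h.fix_inv]

theorem fix_pow (h : PLine x p q) (k : ℕ) : W x p ^ k • q = q := by
  induction k with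
  | zero => simp
  | succ k ih => rw [pow_succ, mul_smul, h.fix, ih]

theorem word_cons (hp : 0 < p) (hx : ∀ n, x (n + 1) ≠ inv' (x n)) :
    ∃ l, (W x p).toWord = x 0 :: l := by
  obtain ⟨p', rfl⟩ : ∃ p', p = 1 + p' := ⟨p - 1, by omega⟩
  refine ⟨wl (fun j => x (1 + j)) p', ?_⟩
  rw [W_word hx, wl_add]
  rfl

theorem fixed_end (h : PLine x p q) (hp : 0 < p) (hx : ∀ n, x (n + 1) ≠ inv' (x n))
    {η : Bd N} (hη : W x p • η = η) : η = q.1.1 ∨ η = q.1.2 := by
  obtain ⟨l, hw⟩ := word_cons hp hx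
  obtain ⟨m, hm⟩ := toWord_inv_cons hw
  have f1 : W x p • q.1.1 = q.1.1 := by rw [← smul_fst, h.fix]
  have f2 : W x p • q.1.2 = q.1.2 := by rw [← smul_snd, h.fix]
  have hcyc := cyc_of_fixed hw f1 f2 h.mem
  have inv_fix : ∀ {ξ : Bd N}, W x p • ξ = ξ → (W x p)⁻¹ • ξ = ξ := by
    intro ξ hξ
    rw [inv_smul_eq_iff, hξ]
  have hcyc' := cyc_of_fixed hm (inv_fix f1) (inv_fix f2) h.mem
  have hne' : x 0 ≠ inv' ((x 0 :: l).getLast (by simp)) := by
    have h1 := hcyc.2
    rw [hw] at h1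
    have := h1 ((x 0 :: l).getLast (by simp)) (by
      rw [List.getLast?_eq_getLast_of_ne_nil (by simp)]; rfl) (x 0) rfl
    rwa [reduced_iff] at this
  by_cases hη1 : η.1 1 = x 0
  · right
    refine fixed_unique hcyc' hm (inv_fix hη) (inv_fix f2) ?_ ?_
    · rw [hη1]; exact hne'
    · rw [h.snd_one]; exact hne'
  · left
    exact fixed_unique hcyc hw hη f1 hη1 h.first

theorem axis (h : PLine x p q) (hp : 0 < p) (hx : ∀ n, x (n + 1) ≠ inv' (x n))
    {v : FreeGroup (Fin N)} (hv : q ∈ U v) : ∃ k n : ℕ, W x p ^ k * v = ray q.1.2 n := by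
  obtain ⟨l, hw⟩ := word_cons hp hx
  have f1 : W x p • q.1.1 = q.1.1 := by rw [← smul_fst, h.fix]
  have f2 : W x p • q.1.2 = q.1.2 := by rw [← smul_snd, h.fix]
  have hcyc := cyc_of_fixed hw f1 f2 h.mem
  obtain ⟨k, m, hm⟩ := exists_back hcyc hw v
  refine ⟨k, (W x p ^ k * v).norm, (ray_of_norm q.1.2 _ ?_).symm⟩
  have hr : FreeGroup.IsReduced (x 0 :: m) := by
    rw [← hm]; exact FreeGroup.isReduced_toWord
  have h1 := follow q.1.1 m (x 0) 1 hr h.first
  have e : FreeGroup.mk (x 0 :: m) = W x p ^ k * v := by rw [← hm, FreeGroup.mk_toWord]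
  rw [one_mul, e] at h1
  have h2 : q ∈ U (W x p ^ k * v) := by
    have := (smul_mem_U (W x p ^ k) v q).mpr hv
    rwa [h.fix_pow] at this
  intro b hb
  rw [hm, List.getLast?_eq_getLast_of_ne_nil (by simp)] at hb
  simp only [Option.mem_def, Option.some.injEq] at hb
  rw [mem_U, h1, hb] at h2
  exact h2.symm

theorem orbit (h : PLine x p q) (hp : 0 < p) (hx : ∀ n, x (n + 1) ≠ inv' (x n))
    {f : FreeGroup (Fin N)} (hf : f • q ∈ U 1) :
    ∃ k n : ℕ, W x p ^ k * f⁻¹ = ray q.1.2 n ∧ f • q = sh^[n % p] q := by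
  have h1 : q ∈ U f⁻¹ := (smul_mem_U f f⁻¹ q).mp (by rw [mul_inv_cancel]; exact hf)
  obtain ⟨k, n, hkn⟩ := h.axis hp hx h1
  refine ⟨k, n, hkn, ?_⟩
  have h2 : Function.IsPeriodicPt sh p q := h.period
  rw [h2.iterate_mod_apply, sh_iter, ← hkn, mul_inv_rev, inv_inv, mul_smul,
    inv_smul_eq_iff.mpr (h.fix_pow k).symm]

theorem ends (h : PLine x p q) (hp : 0 < p) (hx : ∀ n, x (n + 1) ≠ inv' (x n))
    {P : Bd2 N} (hP : P ∈ Ends (W x p)) (hU : P ∈ U 1) :
    ∃ i < p, P = sh^[i] q ∨ P = flip2 (sh^[i] q) := by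
  obtain ⟨f, hf⟩ := hP
  have h0 : W x p • (f⁻¹ • P) = f⁻¹ • P := by
    conv_rhs => rw [← hf]
    rw [← mul_smul, ← mul_smul]
    congr 1
    group
  have g1 : W x p • (f⁻¹ • P).1.1 = (f⁻¹ • P).1.1 := by rw [← smul_fst, h0]
  have g2 : W x p • (f⁻¹ • P).1.2 = (f⁻¹ • P).1.2 := by rw [← smul_snd, h0]
  have key : f⁻¹ • P = q ∨ f⁻¹ • P = flip2 q := by
    rcases h.fixed_end hp hx g1 with k1 | k1 <;> rcases h.fixed_end hp hx g2 with k2 | k2
    · exact absurd (k1.trans k2.symm) (f⁻¹ • P).2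
    · left; exact Subtype.ext (Prod.ext k1 k2)
    · right; exact Subtype.ext (Prod.ext k1 k2)
    · exact absurd (k1.trans k2.symm) (f⁻¹ • P).2
  rcases key with k | k
  · have h1 : P = f • q := by rw [← k, smul_inv_smul]
    rw [h1] at hU ⊢
    obtain ⟨_, n, _, h2⟩ := h.orbit hp hx hU
    exact ⟨n % p, Nat.mod_lt _ hp, Or.inl h2⟩
  · have h1 : P = flip2 (f • q) := by
      have : P = f • flip2 q := by rw [← k, smul_inv_smul]
      rw [this]
      rfl
    have hU' : f • q ∈ U 1 := by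
      rw [h1] at hU
      exact fun h => hU h.symm
    obtain ⟨_, n, _, h2⟩ := h.orbit hp hx hU'
    exact ⟨n % p, Nat.mod_lt _ hp, Or.inr (by rw [h1, h2])⟩

theorem mem_ends (h : PLine x p q) (i : ℕ) : sh^[i] q ∈ Ends (W x p) := by
  rw [sh_iter, smul_mem_ends]
  exact ⟨1, by rw [one_mul, inv_one, mul_one]; exact h.fix⟩

theorem ray_mul (h : PLine x p q) (hper : ∀ n, x (p + n) = x n) (k : ℕ) :
    ray q.1.2 (p * k) = W x p ^ k := by
  rw [h.rays, W_mul hper]

/-- The words of length `M` are distinct. -/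
def Dist (x : ℕ → Lt N) (p M : ℕ) : Prop :=
  ∀ i < p, ∀ j < p, W (fun k => x (i + k)) M = W (fun k => x (j + k)) M → i = j

theorem inj (h : PLine x p q) {M : ℕ} (hd : Dist x p M) {i j : ℕ} (hi : i < p) (hj : j < p)
    (he : sh^[i] q = sh^[j] q) : i = j := by
  apply hd i hi j hj
  rw [← h.shift, ← h.shift, he]

theorem expo_eq (h : PLine x p q) (hp : 0 < p) (hx : ∀ n, x (n + 1) ≠ inv' (x n))
    (hper : ∀ n, x (p + n) = x n) {M : ℕ} (hd : Dist x p M) : expo (W x p) = 1 := by
  have hc : Subgroup.centralizer {W x p} = Subgroup.zpowers (W x p) := by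
    apply le_antisymm
    · intro y hy
      rw [Subgroup.mem_centralizer_singleton_iff] at hy
      have h1 : y • q = q := h.comm y hy
      have h2 : y⁻¹ • q = q := by rw [inv_smul_eq_iff, h1]
      obtain ⟨k, n, hkn, h3⟩ := h.orbit hp hx (f := y⁻¹) (by rw [h2]; exact h.mem)
      rw [h2] at h3
      have h4 : n % p = 0 := h.inj hd (Nat.mod_lt _ hp) hp h3.symm
      obtain ⟨m, rfl⟩ := Nat.dvd_of_mod_eq_zero h4
      rw [h.ray_mul hper, inv_inv] at hkn
      have h5 : y = (W x p ^ k)⁻¹ * W x p ^ m := by rw [← hkn, inv_mul_cancel_left]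
      rw [h5]
      exact Subgroup.mul_mem _ (Subgroup.inv_mem _ (Subgroup.npow_mem_zpowers _ _))
        (Subgroup.npow_mem_zpowers _ _)
    · rw [Subgroup.zpowers_le, Subgroup.mem_centralizer_singleton_iff]
  unfold expo
  rw [hc, Subgroup.relIndex_self]

theorem ne_one (hp : 0 < p) (hx : ∀ n, x (n + 1) ≠ inv' (x n)) : W x p ≠ 1 := by
  intro h
  have := W_norm hx p
  rw [h, FreeGroup.norm_one] at this
  omega

end PLine

theorem sh_fst_one {q : Bd2 N} (hq : q ∈ U 1) : (sh q).1.1.1 1 = inv' (q.1.2.1 1) := by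
  rw [sh_fst, Bd.smul_apply, inv_inv, mul_one]
  have h2 := (q.1.1.2 1 (q.1.2.1 1)).mpr hq
  rwa [one_mul] at h2

theorem sh_inj {q1 q2 : Bd2 N} (h1 : q1 ∈ U 1) (h2 : q2 ∈ U 1) (h : sh q1 = sh q2) :
    q1 = q2 := by
  have e1 := sh_fst_one h1
  have e2 := sh_fst_one h2
  rw [h, e2] at e1
  have e3 : q2.1.2.1 1 = q1.1.2.1 1 := by
    have := congrArg inv' e1
    rwa [inv'_inv', inv'_inv'] at this
  unfold sh at h
  rw [e3] at h
  exact MulAction.injective _ h

theorem flip_ne : ∀ (d : ℕ) (q : Bd2 N), q ∈ U 1 → flip2 q ≠ sh^[d] q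
  | 0, q, _ => by
    intro h
    rw [Function.iterate_zero, id] at h
    have := congrArg (fun P : Bd2 N => P.1.1) h
    exact q.2 this.symm
  | 1, q, hq => by
    intro h
    rw [Function.iterate_one] at h
    have h1 := congrArg (fun P : Bd2 N => P.1.1.1 1) h
    change q.1.2.1 1 = (sh q).1.1.1 1 at h1
    rw [sh_fst_one hq] at h1
    exact inv'_ne _ h1.symm
  | d + 2, q, hq => by
    intro h
    apply flip_ne d (sh q) (sh_mem hq)
    -- `flip (sh q)` is the point before `flip q`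
    have h1 : sh (flip2 (sh q)) = flip2 q := by
      have e : (flip2 (sh q)).1.2.1 1 = inv' (q.1.2.1 1) := sh_fst_one hq
      change (lt ((flip2 (sh q)).1.2.1 1))⁻¹ • flip2 (sh q) = _
      rw [e, Pool.Agent.H67R3.FSR.lt_inv', inv_inv]
      change lt (q.1.2.1 1) • ((lt (q.1.2.1 1))⁻¹ • flip2 q) = _
      rw [smul_inv_smul]
    have hm : flip2 (sh q) ∈ U 1 := fun h => sh_mem hq h.symm
    refine sh_inj hm (sh_iter_mem (sh_mem hq) d) ?_
    rw [h1, h, Function.iterate_succ_apply', Function.iterate_succ_apply]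

end Pool.Agent.P8H64.PS
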