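import Mathlib
import Pool.Agent.P8H64.PS.Cycle

set_option autoImplicit false

/-!
# Integrals with respect to counting currents
-/

namespace Pool.Agent.P8H64.PS

open Pool.Agent.H472R3 Pool.Agent.H67R3.FSR Filter Topology MeasureTheory
open Pool.Agent.H67R4.SR hiding Q
open scoped ENNReal NNReal

variable {N : ℕ}

theorem sum_count (T : Finset (Bd2 N)) (f : Bd2 N → ℝ) :
    ∫ q in (T : Set (Bd2 N)), f q ∂(Measure.count : Measure (Bd2 N)) = ∑ q ∈ T, f q := by
  have e : (T : Set (Bd2 N)) = ⋃ q ∈ T, {q} := by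
    ext q
    simp
  rw [e, integral_biUnion_finset T (fun q _ => measurableSet_singleton q)]
  · refine Finset.sum_congr rfl fun q _ => ?_
    rw [integral_singleton]
    simp [measureReal_def]
  · intro u _ v _ huv
    rw [Function.onFun, Set.disjoint_singleton]
    exact huv
  · intro q _
    rw [integrableOn_singleton_iff]
    right
    simp

namespace PLine

variable {x : ℕ → Lt N} {p : ℕ} {q : Bd2 N}

theorem int_eta (h : PLine x p q) (hp : 0 < p) (hx : ∀ n, x (n + 1) ≠ inv' (x n))
    (hper : ∀ n, x (p + n) = x n) {M : ℕ} (hd : Dist x p M) (f : Bd2 N → ℝ) :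
    ∫ P in U 1, f P ∂(eta (W x p) (ne_one hp hx)).meas =
      ∑ i ∈ Finset.range p, f (sh^[i] q) + ∑ i ∈ Finset.range p, f (flip2 (sh^[i] q)) := by
  classical
  have e1 : (eta (W x p) (ne_one hp hx)).meas = Measure.count.restrict (Ends (W x p)) := by
    change etaMeas _ = _
    unfold etaMeas
    rw [h.expo_eq hp hx hper hd]
    simp
  set T1 : Finset (Bd2 N) := (Finset.range p).image fun i => sh^[i] q with hT1
  set T2 : Finset (Bd2 N) := (Finset.range p).image fun i => flip2 (sh^[i] q) with hT2
  have e2 : U 1 ∩ Ends (W x p) = ((T1 ∪ T2 : Finset (Bd2 N)) : Set (Bd2 N)) := by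
    ext P
    rw [Finset.mem_coe, Finset.mem_union, hT1, hT2, Finset.mem_image, Finset.mem_image]
    constructor
    · rintro ⟨hU, hP⟩
      obtain ⟨i, hi, h1 | h1⟩ := h.ends hp hx hP hU
      · left; exact ⟨i, Finset.mem_range.mpr hi, h1.symm⟩
      · right; exact ⟨i, Finset.mem_range.mpr hi, h1.symm⟩
    · rintro (⟨i, _, rfl⟩ | ⟨i, _, rfl⟩)
      · exact ⟨sh_iter_mem h.mem i, h.mem_ends i⟩
      · exact ⟨fun h' => sh_iter_mem h.mem i h'.symm, (flip_mem_ends _ _).mpr (h.mem_ends i)⟩
  have hdis : Disjoint T1 T2 := by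
    rw [Finset.disjoint_left]
    intro P h1 h2
    rw [hT1, Finset.mem_image] at h1
    rw [hT2, Finset.mem_image] at h2
    obtain ⟨i, hi, h1⟩ := h1
    obtain ⟨j, hj, h2⟩ := h2
    rw [Finset.mem_range] at hi hj
    apply flip_ne (i + (p - j)) (sh^[j] q) (sh_iter_mem h.mem j)
    rw [h2, ← h1, ← Function.iterate_add_apply]
    have : i + (p - j) + j = i + p := by omega
    rw [this, Function.iterate_add_apply, h.period]
  rw [e1, Measure.restrict_restrict (isOpen_U 1).measurableSet, e2, sum_count,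
    Finset.sum_union hdis, hT1, hT2, Finset.sum_image, Finset.sum_image]
  · intro i hi j hj he
    have hi' := Finset.mem_range.mp (Finset.mem_coe.mp hi)
    have hj' := Finset.mem_range.mp (Finset.mem_coe.mp hj)
    exact h.inj hd hi' hj' (congrArg flip2 he)
  · intro i hi j hj he
    have hi' := Finset.mem_range.mp (Finset.mem_coe.mp hi)
    have hj' := Finset.mem_range.mp (Finset.mem_coe.mp hj)
    exact h.inj hd hi' hj' he

theorem sum_orbit (h : PLine x p q) (f : Bd2 N → ℝ) (n : ℕ) :
    ∑ i ∈ Finset.range p, f (sh^[n] (sh^[i] q)) = ∑ i ∈ Finset.range p, f (sh^[i] q) := by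
  induction n with
  | zero => rfl
  | succ n ih =>
    rw [← ih]
    have h1 := Finset.sum_range_succ (fun i => f (sh^[n] (sh^[i] q))) p
    rw [Finset.sum_range_succ' (fun i => f (sh^[n] (sh^[i] q))) p, h.period,
      Function.iterate_zero, id] at h1
    have h2 := add_right_cancel h1
    rw [← h2]
    refine Finset.sum_congr rfl fun i _ => ?_
    congr 1
    rw [Function.iterate_succ_apply, ← Function.iterate_succ_apply' sh i]

/-- The integral of a function of the initial word. -/
theorem int_eta_ray (h : PLine x p q) (hp : 0 < p) (hx : ∀ n, x (n + 1) ≠ inv' (x n))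
    (hper : ∀ n, x (p + n) = x n) {M : ℕ} (hd : Dist x p M) (F : FreeGroup (Fin N) → ℝ) (n : ℕ) :
    ∫ P in U 1, F (ray P.1.2 n) ∂(eta (W x p) (ne_one hp hx)).meas =
      ∑ i ∈ Finset.range p, (F (W (fun j => x (i + j)) n) + F (W (fun j => x (i + j)) n)⁻¹) := by
  rw [h.int_eta hp hx hper hd, Finset.sum_add_distrib]
  congr 1
  · refine Finset.sum_congr rfl fun i _ => ?_
    rw [h.shift]
  · have h1 := h.sum_orbit (fun P => F (ray (flip2 P).1.2 n)) n
    rw [← h1]
    refine Finset.sum_congr rfl fun i _ => ?_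
    have h2 : ray (flip2 (sh^[n] (sh^[i] q))).1.2 n = (W (fun j => x (i + j)) n)⁻¹ := by
      rw [← h.shift]
      exact ray_back (sh_iter_mem h.mem i) n
    rw [h2]

theorem ms_eta (h : PLine x p q) (hp : 0 < p) (hx : ∀ n, x (n + 1) ≠ inv' (x n))
    (hper : ∀ n, x (p + n) = x n) {M : ℕ} (hd : Dist x p M) :
    ms (eta (W x p) (ne_one hp hx)) = 2 * p := by
  have h1 := h.int_eta hp hx hper hd (fun _ => 1)
  rw [setIntegral_const, smul_eq_mul, mul_one] at h1
  unfold ms
  rw [h1]
  simp
  ring

theorem word_conj (hper : ∀ n, x (p + n) = x n) (i : ℕ) :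
    W (fun j => x (i + j)) p = (W x i)⁻¹ * W x p * W x i := by
  have h1 : W x (p + i) = W x p * W x i := by
    rw [W_add]
    simp only [hper]
  have h2 := W_add x i p
  rw [add_comm i p, h1] at h2
  rw [mul_assoc, h2, inv_mul_cancel_left]

theorem word_mul_p (hper : ∀ n, x (p + n) = x n) (i k : ℕ) :
    W (fun j => x (i + j)) (p * k) = W (fun j => x (i + j)) p ^ k := by
  apply W_mul
  intro n
  have : i + (p + n) = p + (i + n) := by ring
  rw [this, hper]

/-- Counting currents are good. -/
theorem good (h : PLine x p q) (hp : 0 < p) (hx : ∀ n, x (n + 1) ≠ inv' (x n))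
    (hper : ∀ n, x (p + n) = x n) {M : ℕ} (hd : Dist x p M) {A : FTree N} (hA : A.InCV) (z : A.T)
    {K : ℝ} (hK0 : 0 ≤ K) (hK : ∀ u v : FreeGroup (Fin N), (u * v).norm = u.norm + v.norm →
      (lenFn A z).L u + (lenFn A z).L v - K ≤ (lenFn A z).L (u * v))
    {c : Current N → ℝ} (hc : c (eta (W x p) (ne_one hp hx)) = A.len (W x p)) :
    Good c (lenFn A z) (2 * K) (eta (W x p) (ne_one hp hx)) := by
  intro n
  set η := eta (W x p) (ne_one hp hx) with hη
  set ℓ := lenFn A z with hℓ
  rw [hc]
  rcases Nat.eq_zero_or_pos n with hn | hn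
  · subst hn
    rw [av_zero]
    simp only [Nat.cast_zero, mul_zero, zero_mul, zero_add, le_refl, true_and]
    exact mul_nonneg (by linarith) (ms_nonneg _)
  have hm := h.ms_eta hp hx hper hd
  rw [← hη] at hm
  have hone : ∀ i, n * A.len (W x p) ≤ ℓ.L (W (fun j => x (i + j)) (p * n)) ∧
      ℓ.L (W (fun j => x (i + j)) (p * n)) ≤ n * A.len (W x p) + K := by
    intro i
    rw [word_mul_p hper]
    set g := W (fun j => x (i + j)) p with hg
    have hxi : ∀ k, x (i + (k + 1)) ≠ inv' (x (i + k)) := fun k => hx (i + k)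
    have hperi : ∀ k, x (i + (p + k)) = x (i + k) := by
      intro k
      have : i + (p + k) = p + (i + k) := by ring
      rw [this, hper]
    have hg1 : g ≠ 1 := ne_one (x := fun j => x (i + j)) hp hxi
    have hlen : A.len g = A.len (W x p) := by
      have := len_conj A (W x i)⁻¹ (W x p)
      rw [inv_inv] at this
      rw [hg, word_conj hper, this]
    have h1 := len_pow A hA.1 g hg1 n hn
    have h2 : A.len (g ^ n) ≤ ℓ.L (g ^ n) := A.le_dist _ z
    have hgn : g ^ n ≠ 1 := by
      intro h0
      have h5 := len_pos A hA.1 g hg1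
      have h6 : (0 : ℝ) < n := by exact_mod_cast hn
      rw [h0] at h1
      have h7 : A.len (1 : FreeGroup (Fin N)) ≤ 0 := by
        have := A.le_dist 1 z
        rwa [one_smul, dist_self] at this
      have := mul_pos h6 h5
      linarith
    have h3 := len_eq' A hA.1 z (g ^ n) hgn
    have h4 := hK (g ^ n) (g ^ n) (by
      rw [← pow_add, hg, ← W_mul (x := fun j => x (i + j)) hperi,
        ← W_mul (x := fun j => x (i + j)) hperi, W_norm hxi, W_norm hxi]
      ring)
    rw [hlen] at h1
    constructor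
    · linarith
    · linarith
  have hav : av ℓ η (p * n) =
      ∑ i ∈ Finset.range p, 2 * ℓ.L (W (fun j => x (i + j)) (p * n)) := by
    unfold av
    rw [hη, h.int_eta_ray hp hx hper hd ℓ.L (p * n)]
    refine Finset.sum_congr rfl fun i _ => ?_
    rw [ℓ.inv]
    ring
  have hpr : (0 : ℝ) < p := by exact_mod_cast hp
  have b1 : p * (2 * (n * A.len (W x p))) ≤ av ℓ η (p * n) := by
    rw [hav]
    have := Finset.card_nsmul_le_sum (Finset.range p)
      (fun i => 2 * ℓ.L (W (fun j => x (i + j)) (p * n))) (2 * (n * A.len (W x p)))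
      (fun i _ => by linarith [(hone i).1])
    rwa [Finset.card_range, nsmul_eq_mul] at this
  have b2 : av ℓ η (p * n) ≤ p * (2 * (n * A.len (W x p) + K)) := by
    rw [hav]
    have := Finset.sum_le_card_nsmul (Finset.range p)
      (fun i => 2 * ℓ.L (W (fun j => x (i + j)) (p * n))) (2 * (n * A.len (W x p) + K))
      (fun i _ => by linarith [(hone i).2])
    rwa [Finset.card_range, nsmul_eq_mul] at this
  have b3 := av_mul_le ℓ η p n
  have b4 := le_av_mul ℓ η hK p n
  rw [hm] at b4 ⊢
  constructor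
  · have : p * (2 * (n * A.len (W x p))) ≤ p * av ℓ η n := b1.trans b3
    have := le_of_mul_le_mul_left this hpr
    linarith
  · have h5 : p * (av ℓ η n - K * (2 * p)) ≤ p * (2 * (n * A.len (W x p) + K)) := by
      have := b4.trans b2
      linarith
    have h6 := le_of_mul_le_mul_left h5 hpr
    have h7 : (1 : ℝ) ≤ p := by exact_mod_cast hp
    have h8 : K ≤ K * p := le_mul_of_one_le_right hK0 h7
    nlinarith

end PLine

end Pool.Agent.P8H64.PS
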