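import Mathlib
import Pool.Agent.P8H64.PS.Count

set_option autoImplicit false

/-!
# Approximation by sums of counting currents
-/

namespace Pool.Agent.P8H64.PS

open Pool.Agent.H472R3 Pool.Agent.H67R3.FSR Filter Topology MeasureTheory
open Pool.Agent.H67R4.SR hiding Q
open scoped ENNReal NNReal

variable {N : ℕ}

/-- Closed walks in the graph of the words of length `m + 1`. -/
theorem walk_words {m : ℕ} (hm : 1 ≤ m) {c : ℕ → FreeGroup (Fin N)}
    (hc : ∀ i, (c i).norm = m + 1) (hs : ∀ i, suf (c i) = pre (c (i + 1))) :
    ∃ x : ℕ → Lt N, (∀ n, x (n + 1) ≠ inv' (x n)) ∧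
      (∀ i, c i = W (fun j => x (i + j)) (m + 1)) ∧ ∀ i, ∃ l, (c i).toWord = x i :: l := by
  have h1 : ∀ i, ∃ a l, (c i).toWord = a :: l := by
    intro i
    apply exists_cons
    intro h
    have := hc i
    rw [h, FreeGroup.norm_one] at this
    omega
  choose x l hxl using h1
  have hred : ∀ i, FreeGroup.IsReduced (x i :: l i) := by
    intro i
    rw [← hxl]
    exact FreeGroup.isReduced_toWord
  have hlen : ∀ i, (l i).length = m := by
    intro i
    have := hc i
    unfold FreeGroup.norm at this
    rw [hxl, List.length_cons] at this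
    omega
  have hl : ∀ i, l i = (x (i + 1) :: l (i + 1)).dropLast := by
    intro i
    have h2 := hs i
    unfold suf pre at h2
    rw [hxl, hxl, List.tail_cons] at h2
    have h3 := congrArg FreeGroup.toWord h2
    rw [toWord_mk_red (L := l i) (hred i).tail, toWord_mk_red] at h3
    · exact h3
    · have h4 := hred (i + 1)
      have h5 := List.dropLast_append_getLast (l := x (i + 1) :: l (i + 1)) (by simp)
      rw [← h5] at h4
      unfold FreeGroup.IsReduced at h4 ⊢
      exact (List.isChain_append.mp h4).1
  have hx : ∀ n, x (n + 1) ≠ inv' (x n) := by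
    intro n
    have h2 := hl n
    have h3 : l (n + 1) ≠ [] := by
      intro h
      have := hlen (n + 1)
      rw [h] at this
      simp at this
      omega
    rw [List.dropLast_cons_of_ne_nil h3] at h2
    have h4 := hred n
    rw [h2] at h4
    apply reduced_step
    unfold FreeGroup.IsReduced at h4
    rw [List.isChain_cons_cons] at h4
    exact h4.1
  refine ⟨x, hx, ?_, fun i => ⟨l i, hxl i⟩⟩
  have key : ∀ k, k ≤ m + 1 → ∀ i, (c i).toWord.take k = wl (fun j => x (i + j)) k := by
    intro k
    induction k with
    | zero => intro _ i; simp [wl]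
    | succ k ih =>
      intro hk i
      rw [hxl, List.take_succ_cons, hl, ← hxl, List.dropLast_eq_take, List.take_take,
        min_eq_left (by
          have := hc (i + 1)
          unfold FreeGroup.norm at this
          omega), ih (by omega) (i + 1), add_comm k 1, wl_add]
      have e : (fun j => x (i + (1 + j))) = fun j => x (i + 1 + j) := by
        funext j
        rw [add_assoc]
      rw [e]
      simp [wl]
  intro i
  have h2 := key (m + 1) le_rfl i
  rw [List.take_of_length_le (hc i).le] at h2
  unfold W
  rw [← h2, FreeGroup.mk_toWord]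

theorem decomp {m : ℕ} (hm : 1 ≤ m) (P : Current N → Prop) (h0 : P 0)
    (hadd : ∀ μ ν, P μ → P ν → P (μ + ν)) (hsmul : ∀ (r : ℝ≥0) (ν : Current N), P ν → P (r • ν))
    (heta : ∀ (x : ℕ → Lt N) (p : ℕ) (q : Bd2 N) (hp : 0 < p)
      (hx : ∀ n, x (n + 1) ≠ inv' (x n)), (∀ n, x (p + n) = x n) → PLine x p q →
      PLine.Dist x p (m + 1) → P (eta (W x p) (PLine.ne_one hp hx))) :
    ∀ (k : ℕ) (f : FreeGroup (Fin N) → ℝ), (∀ w, 0 ≤ f w) → (∀ w ∉ Sn N (m + 1), f w = 0) →
      (∀ φ : FreeGroup (Fin N) → ℝ, ∑ w ∈ Sn N (m + 1), f w * φ (pre w) =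
        ∑ w ∈ Sn N (m + 1), f w * φ (suf w)) →
      ((Sn N (m + 1)).filter fun w => f w ≠ 0).card ≤ k →
      ∃ ν : Current N, P ν ∧ ∀ w ∈ Sn N (m + 1), ν.meas.real (cyl (m + 1) w) = f w + f w⁻¹ := by
  classical
  intro k
  induction k with
  | zero =>
    intro f _ hoff _ hcard
    have hf : ∀ w, f w = 0 := by
      intro w
      by_contra hw
      have h1 : w ∈ (Sn N (m + 1)).filter fun w => f w ≠ 0 := by
        rw [Finset.mem_filter]
        refine ⟨?_, hw⟩
        by_contra h2
        exact hw (hoff w h2)
      have := Finset.card_pos.mpr ⟨w, h1⟩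
      omega
    refine ⟨0, h0, fun w _ => ?_⟩
    rw [hf, hf, Current.zero_meas]
    simp
  | succ k ih =>
    intro f hpos hoff hkir hcard
    by_cases hz : ∀ w, f w = 0
    · refine ⟨0, h0, fun w _ => ?_⟩
      rw [hz, hz, Current.zero_meas]
      simp
    push Not at hz
    obtain ⟨w0, hw0⟩ := hz
    set S : Set (FreeGroup (Fin N)) := {w | f w ≠ 0} with hS
    have hSn : ∀ w ∈ S, w ∈ Sn N (m + 1) := by
      intro w hw
      by_contra h
      exact hw (hoff w h)
    have hfin : S.Finite := (Sn N (m + 1)).finite_toSet.subset hSn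
    have hnext : ∀ w ∈ S, ∃ w' ∈ S, pre w' = suf w := by
      intro w hw
      by_contra hc
      push Not at hc
      have h1 := hkir (fun v => if v = suf w then 1 else 0)
      have h2 : ∑ w' ∈ Sn N (m + 1), f w' * (if pre w' = suf w then (1 : ℝ) else 0) = 0 := by
        apply Finset.sum_eq_zero
        intro w' _
        by_cases hw' : w' ∈ S
        · rw [if_neg (hc w' hw'), mul_zero]
        · have : f w' = 0 := not_not.mp hw'
          rw [this, zero_mul]
      have h3 : 0 < ∑ w' ∈ Sn N (m + 1), f w' * (if suf w' = suf w then (1 : ℝ) else 0) := by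
        apply Finset.sum_pos'
        · intro w' _
          exact mul_nonneg (hpos w') (by split_ifs <;> norm_num)
        · refine ⟨w, hSn w hw, ?_⟩
          rw [if_pos rfl, mul_one]
          exact lt_of_le_of_ne (hpos w) (Ne.symm hw)
      rw [h2] at h1
      linarith
    set Fv : FreeGroup (Fin N) → FreeGroup (Fin N) := fun v =>
      if h : ∃ w' ∈ S, pre w' = v then h.choose else 1 with hFv
    have hF : ∀ w ∈ S, Fv (suf w) ∈ S ∧ pre (Fv (suf w)) = suf w := by
      intro w hw
      have h := hnext w hw
      rw [hFv]
      simp only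
      rw [dif_pos h]
      exact h.choose_spec
    set F : FreeGroup (Fin N) → FreeGroup (Fin N) := fun w => Fv (suf w) with hFdef
    have hFS : ∀ n, ∀ w ∈ S, F^[n] w ∈ S := by
      intro n
      induction n with
      | zero => intro w hw; exact hw
      | succ n ihn =>
        intro w hw
        rw [Function.iterate_succ_apply']
        exact (hF _ (ihn w hw)).1
    -- a periodic point
    obtain ⟨e, heS, heP⟩ : ∃ e ∈ S, e ∈ Function.periodicPts F := by
      have h1 : ¬ Function.Injective (fun n : ℕ => F^[n] w0) := by
        intro hinj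
        exact Set.infinite_range_of_injective hinj (hfin.subset (by
          rintro _ ⟨n, rfl⟩
          exact hFS n w0 hw0))
      unfold Function.Injective at h1
      push Not at h1
      obtain ⟨i, j, h2, h3⟩ := h1
      have key : ∀ i j : ℕ, i < j → F^[i] w0 = F^[j] w0 → ∃ e ∈ S, e ∈ Function.periodicPts F := by
        intro i j hij h
        refine ⟨F^[i] w0, hFS i w0 hw0, j - i, by omega, ?_⟩
        unfold Function.IsPeriodicPt Function.IsFixedPt
        rw [← Function.iterate_add_apply, Nat.sub_add_cancel hij.le, h]
      rcases lt_or_gt_of_ne h3 with h | h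
      · exact key i j h h2
      · exact key j i h h2.symm
    set p := Function.minimalPeriod F e with hp
    have hppos : 0 < p := Function.minimalPeriod_pos_of_mem_periodicPts heP
    set c : ℕ → FreeGroup (Fin N) := fun i => F^[i] e with hc
    have hcS : ∀ i, c i ∈ S := fun i => hFS i e heS
    have hcper : ∀ i, c (p + i) = c i := by
      intro i
      rw [hc]
      simp only
      rw [add_comm, Function.iterate_add_apply]
      congr 1
      exact Function.isPeriodicPt_minimalPeriod F e
    have hcinj : ∀ i < p, ∀ j < p, c i = c j → i = j := by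
      intro i hi j hj h
      exact Function.iterate_injOn_Iio_minimalPeriod hi hj h
    have hcnorm : ∀ i, (c i).norm = m + 1 := fun i => mem_Sn.mp (hSn _ (hcS i))
    have hcs : ∀ i, suf (c i) = pre (c (i + 1)) := by
      intro i
      have : c (i + 1) = F (c i) := by
        rw [hc]
        exact Function.iterate_succ_apply' F i e
      rw [this]
      exact (hF _ (hcS i)).2.symm
    obtain ⟨x, hx, hxc, hxl⟩ := walk_words hm hcnorm hcs
    have hper : ∀ n, x (p + n) = x n := by
      intro n
      obtain ⟨l1, h1⟩ := hxl (p + n)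
      obtain ⟨l2, h2⟩ := hxl n
      rw [hcper, h2] at h1
      exact (List.cons.inj h1).1.symm
    obtain ⟨q, hq⟩ := exists_line hppos hx hper
    have hd : PLine.Dist x p (m + 1) := by
      intro i hi j hj h
      rw [← hxc, ← hxc] at h
      exact hcinj i hi j hj h
    set η := eta (W x p) (PLine.ne_one hppos hx) with hη
    have hPη : P η := heta x p q hppos hx hper hq hd
    -- the indicator function of the cycle
    set C : FreeGroup (Fin N) → ℝ := fun w => ∑ i ∈ Finset.range p, if c i = w then 1 else 0
      with hC
    have hηC : ∀ w, η.meas.real (cyl (m + 1) w) = C w + C w⁻¹ := by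
      intro w
      rw [real_cyl_eq, hη,
        hq.int_eta_ray hppos hx hper hd (fun v => if v = w then (1 : ℝ) else 0) (m + 1), hC,
        Finset.sum_add_distrib]
      congr 1
      · refine Finset.sum_congr rfl fun i _ => ?_
        rw [hxc i]
      · refine Finset.sum_congr rfl fun i _ => ?_
        rw [hxc i]
        simp only [inv_eq_iff_eq_inv]
    have hCc : ∀ i < p, C (c i) = 1 := by
      intro i hi
      rw [hC]
      simp only
      rw [Finset.sum_eq_single i]
      · rw [if_pos rfl]
      · intro j hj hne
        rw [if_neg]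
        intro h
        exact hne (hcinj j (Finset.mem_range.mp hj) i hi h)
      · intro h
        exact absurd (Finset.mem_range.mpr hi) h
    have hC0 : ∀ w, (∀ i < p, c i ≠ w) → C w = 0 := by
      intro w hw
      rw [hC]
      simp only
      apply Finset.sum_eq_zero
      intro i hi
      rw [if_neg (hw i (Finset.mem_range.mp hi))]
    -- the minimal weight
    obtain ⟨i0, hi0, hmin⟩ := Finset.exists_min_image (Finset.range p) (fun i => f (c i))
      ⟨0, Finset.mem_range.mpr hppos⟩
    rw [Finset.mem_range] at hi0
    set δ := f (c i0) with hδ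
    have hδpos : 0 ≤ δ := hpos _
    set f' : FreeGroup (Fin N) → ℝ := fun w => f w - δ * C w with hf'
    have hf'pos : ∀ w, 0 ≤ f' w := by
      intro w
      by_cases hw : ∃ i < p, c i = w
      · obtain ⟨i, hi, rfl⟩ := hw
        rw [hf']
        simp only
        rw [hCc i hi, mul_one]
        have := hmin i (Finset.mem_range.mpr hi)
        linarith
      · push Not at hw
        rw [hf']
        simp only
        rw [hC0 w hw, mul_zero, sub_zero]
        exact hpos w
    have hCS : ∀ w, C w ≠ 0 → f w ≠ 0 := by
      intro w hw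
      by_contra h
      apply hw
      apply hC0
      intro i _ hi
      exact hcS i (by rw [hi]; exact h)
    have hf'off : ∀ w, f w = 0 → f' w = 0 := by
      intro w hw
      have : C w = 0 := by
        by_contra h
        exact hCS w h hw
      rw [hf']
      simp only
      rw [hw, this]
      ring
    have hkC : ∀ φ : FreeGroup (Fin N) → ℝ, ∀ g : FreeGroup (Fin N) → FreeGroup (Fin N),
        ∑ w ∈ Sn N (m + 1), C w * φ (g w) = ∑ i ∈ Finset.range p, φ (g (c i)) := by
      intro φ g
      rw [hC]
      simp only [Finset.sum_mul]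
      rw [Finset.sum_comm]
      refine Finset.sum_congr rfl fun i _ => ?_
      rw [Finset.sum_eq_single (c i)]
      · rw [if_pos rfl, one_mul]
      · intro w _ hne
        rw [if_neg (Ne.symm hne), zero_mul]
      · intro h
        exact absurd (hSn _ (hcS i)) h
    have hkir' : ∀ φ : FreeGroup (Fin N) → ℝ, ∑ w ∈ Sn N (m + 1), f' w * φ (pre w) =
        ∑ w ∈ Sn N (m + 1), f' w * φ (suf w) := by
      intro φ
      have e1 : ∀ g : FreeGroup (Fin N) → FreeGroup (Fin N),
          ∑ w ∈ Sn N (m + 1), f' w * φ (g w) = ∑ w ∈ Sn N (m + 1), f w * φ (g w) -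
            δ * ∑ i ∈ Finset.range p, φ (g (c i)) := by
        intro g
        rw [← hkC φ g, Finset.mul_sum, ← Finset.sum_sub_distrib]
        refine Finset.sum_congr rfl fun w _ => ?_
        rw [hf']
        ring
      rw [e1, e1, hkir φ]
      congr 2
      simp only [hcs]
      have h1 := Finset.sum_range_succ (fun i => φ (pre (c i))) p
      rw [Finset.sum_range_succ' (fun i => φ (pre (c i))) p] at h1
      have h2 : c p = c 0 := hcper 0
      rw [h2] at h1
      exact (add_right_cancel h1).symm
    have hcard' : ((Sn N (m + 1)).filter fun w => f' w ≠ 0).card ≤ k := by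
      have h1 : ((Sn N (m + 1)).filter fun w => f' w ≠ 0) ⊂
          ((Sn N (m + 1)).filter fun w => f w ≠ 0) := by
        rw [Finset.ssubset_iff_of_subset]
        · refine ⟨c i0, ?_, ?_⟩
          · rw [Finset.mem_filter]
            exact ⟨hSn _ (hcS i0), hcS i0⟩
          · rw [Finset.mem_filter, not_and, not_not]
            intro _
            rw [hf']
            simp only
            rw [hCc i0 hi0, ← hδ]
            ring
        · intro w hw
          rw [Finset.mem_filter] at hw ⊢
          refine ⟨hw.1, fun h => hw.2 (hf'off w h)⟩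
      have := Finset.card_lt_card h1
      omega
    obtain ⟨ν, hν, hνw⟩ := ih f' hf'pos (fun w hw => hf'off w (hoff w hw)) hkir' hcard'
    obtain ⟨r, hr⟩ : ∃ r : ℝ≥0, (r : ℝ) = δ := ⟨⟨δ, hδpos⟩, rfl⟩
    refine ⟨r • η + ν, hadd _ _ (hsmul _ _ hPη) hν, fun w hw => ?_⟩
    have e2 : (r • η + ν).meas.real (cyl (m + 1) w) =
        r * η.meas.real (cyl (m + 1) w) + ν.meas.real (cyl (m + 1) w) := by
      rw [Current.add_meas]
      rw [measureReal_add_apply (cyl_lt _ _ _).ne (cyl_lt _ _ _).ne]
      congr 1
      rw [Current.smul_meas, measureReal_def, Measure.smul_apply, ENNReal.smul_def, smul_eq_mul,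
        ENNReal.toReal_mul]
      rfl
    rw [e2, hηC, hνw w hw, hf', hr]
    ring

end Pool.Agent.P8H64.PS
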