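import Mathlib
import Pool.Agent.P8H64.PS.Decomp

set_option autoImplicit false

/-!
# Density of the rational currents; averages and the intersection form
-/

namespace Pool.Agent.P8H64.PS

open Pool.Agent.H472R3 Pool.Agent.H67R3.FSR Filter Topology MeasureTheory
open Pool.Agent.H67R4.SR hiding Q
open scoped ENNReal NNReal

variable {N : ℕ}

theorem exists_agree {m : ℕ} (hm : 1 ≤ m) (P : Current N → Prop) (h0 : P 0)
    (hadd : ∀ μ ν, P μ → P ν → P (μ + ν)) (hsmul : ∀ (r : ℝ≥0) (ν : Current N), P ν → P (r • ν))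
    (heta : ∀ (x : ℕ → Lt N) (p : ℕ) (q : Bd2 N) (hp : 0 < p)
      (hx : ∀ n, x (n + 1) ≠ inv' (x n)), (∀ n, x (p + n) = x n) → PLine x p q →
      PLine.Dist x p (m + 1) → P (eta (W x p) (PLine.ne_one hp hx))) (μ : Current N) :
    ∃ ν : Current N, P ν ∧ Agree (m + 1) ν μ := by
  have hoff : ∀ w ∉ Sn N (m + 1), μ.meas.real (cyl (m + 1) w) / 2 = 0 := by
    intro w hw
    have h1 : cyl (m + 1) w = (∅ : Set (Bd2 N)) := by
      ext q
      simp only [Set.mem_empty_iff_false, iff_false]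
      rintro ⟨_, h⟩
      exact hw (mem_Sn.mpr (by rw [← h, ray_norm]))
    rw [h1, measureReal_empty, zero_div]
  have hkir : ∀ φ : FreeGroup (Fin N) → ℝ,
      ∑ w ∈ Sn N (m + 1), μ.meas.real (cyl (m + 1) w) / 2 * φ (pre w) =
        ∑ w ∈ Sn N (m + 1), μ.meas.real (cyl (m + 1) w) / 2 * φ (suf w) := by
    intro φ
    have e : ∀ g : FreeGroup (Fin N) → FreeGroup (Fin N),
        ∑ w ∈ Sn N (m + 1), μ.meas.real (cyl (m + 1) w) / 2 * φ (g w) =
          (∫ q in U 1, φ (g (ray q.1.2 (m + 1))) ∂μ.meas) / 2 := by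
      intro g
      rw [int_ray μ (m + 1) (fun w => φ (g w)), Finset.sum_div]
      refine Finset.sum_congr rfl fun w _ => ?_
      ring
    rw [e, e]
    simp only [pre_ray, suf_ray]
    rw [← integral_sh μ (continuous_F (N := N) m φ) 1]
    rfl
  obtain ⟨ν, h1, h2⟩ := decomp hm P h0 hadd hsmul heta _
    (fun w => μ.meas.real (cyl (m + 1) w) / 2)
    (fun w => div_nonneg measureReal_nonneg (by norm_num)) hoff hkir le_rfl
  refine ⟨ν, h1, fun w hw => ?_⟩
  rw [h2 w hw, real_cyl_inv]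
  ring

theorem head_far (ξ : Bd N) (v : FreeGroup (Fin N)) {n : ℕ} (hn : v.norm + 2 ≤ n) :
    (v⁻¹ * ray ξ n).toWord.head? = some (ξ.1 v) := by
  have step : ∀ m, v.norm + 2 ≤ m →
      (v⁻¹ * ray ξ (m + 1)).toWord.head? = (v⁻¹ * ray ξ m).toWord.head? := by
    intro m hm
    apply head_close
    have e : (v⁻¹ * ray ξ m)⁻¹ * (v⁻¹ * ray ξ (m + 1)) = lt (ξ.1 (ray ξ m)) := by
      rw [ray]; group
    rw [e, norm_lt]
    have := FreeGroup.norm_mul_le v (v⁻¹ * ray ξ m)
    rw [mul_inv_cancel_left, ray_norm] at this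
    omega
  have hconst : ∀ k, (v⁻¹ * ray ξ (n + k)).toWord.head? = (v⁻¹ * ray ξ n).toWord.head? := by
    intro k
    induction k with
    | zero => rfl
    | succ k ih => rw [← add_assoc, step _ (by omega), ih]
  obtain ⟨M, hM1, hM2⟩ := ((ray_conv ξ v).and (eventually_ge_atTop n)).exists
  obtain ⟨k, rfl⟩ := Nat.exists_eq_add_of_le hM2
  rw [← hconst k]
  exact hM1

theorem eq_of_ray {ξ ζ : Bd N} {v : FreeGroup (Fin N)} {k : ℕ} (h : ray ξ k = ray ζ k)
    (hk : v.norm + 2 ≤ k) : ξ.1 v = ζ.1 v := by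
  have h1 := head_far ξ v hk
  have h2 := head_far ζ v hk
  rw [h, h2] at h1
  exact (Option.some.inj h1).symm

theorem window_nhds {q0 : Bd2 N} {V : Set (Bd2 N)} (hV : V ∈ 𝓝 q0) : ∃ k : ℕ, ∀ q : Bd2 N,
    ray q.1.1 k = ray q0.1.1 k → ray q.1.2 k = ray q0.1.2 k → q ∈ V := by
  by_contra hc
  push Not at hc
  choose q hq1 hq2 hq3 using hc
  have ht : Tendsto q atTop (𝓝 q0) := by
    have hi2 : Topology.IsInducing (fun q : Bd2 N => q.1) := ⟨rfl⟩
    have hi1 : Topology.IsInducing (fun ξ : Bd N => ξ.1) := ⟨rfl⟩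
    rw [hi2.tendsto_nhds_iff, Prod.tendsto_iff]
    constructor
    · rw [hi1.tendsto_nhds_iff, tendsto_pi_nhds]
      intro v
      refine tendsto_const_nhds.congr' ?_
      filter_upwards [eventually_ge_atTop (v.norm + 2)] with n hn
      exact (eq_of_ray (hq1 n) hn).symm
    · rw [hi1.tendsto_nhds_iff, tendsto_pi_nhds]
      intro v
      refine tendsto_const_nhds.congr' ?_
      filter_upwards [eventually_ge_atTop (v.norm + 2)] with n hn
      exact (eq_of_ray (hq2 n) hn).symm
  obtain ⟨n, hn⟩ := (ht.eventually hV).exists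
  exact hq3 n hn

theorem ray_mono {ξ ζ : Bd N} {k n : ℕ} (h : ray ξ n = ray ζ n) (hk : k ≤ n) :
    ray ξ k = ray ζ k := by
  rw [← tk_ray ξ hk, h, tk_ray ζ hk]

theorem uniform_window {f : Bd2 N → ℝ} (hf : Continuous f) {ε : ℝ} (hε : 0 < ε) :
    ∃ k : ℕ, ∀ q ∈ (U 1 : Set (Bd2 N)), ∀ q' : Bd2 N, ray q.1.1 k = ray q'.1.1 k →
      ray q.1.2 k = ray q'.1.2 k → |f q - f q'| ≤ ε := by
  refine isCompact_U1.induction_on (p := fun S => ∃ k : ℕ, ∀ q ∈ S, ∀ q' : Bd2 N,
    ray q.1.1 k = ray q'.1.1 k → ray q.1.2 k = ray q'.1.2 k → |f q - f q'| ≤ ε) ?_ ?_ ?_ ?_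
  · exact ⟨0, fun q hq => absurd hq (Set.notMem_empty _)⟩
  · rintro s t hst ⟨k, hk⟩
    exact ⟨k, fun q hq => hk q (hst hq)⟩
  · rintro s t ⟨k, hk⟩ ⟨k', hk'⟩
    refine ⟨max k k', fun q hq q' h1 h2 => ?_⟩
    rcases hq with hq | hq
    · exact hk q hq q' (ray_mono h1 (le_max_left _ _)) (ray_mono h2 (le_max_left _ _))
    · exact hk' q hq q' (ray_mono h1 (le_max_right _ _)) (ray_mono h2 (le_max_right _ _))
  · intro q0 _
    have hV : {q : Bd2 N | |f q - f q0| < ε / 2} ∈ 𝓝 q0 := by
      have hc : Continuous fun q : Bd2 N => |f q - f q0| := (hf.sub continuous_const).abs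
      apply IsOpen.mem_nhds (isOpen_lt hc continuous_const)
      simp only [Set.mem_ofPred_eq, sub_self, abs_zero]
      linarith
    obtain ⟨k, hk⟩ := window_nhds hV
    refine ⟨{q : Bd2 N | ray q.1.1 k = ray q0.1.1 k ∧ ray q.1.2 k = ray q0.1.2 k},
      mem_nhdsWithin_of_mem_nhds ?_, k, ?_⟩
    · have e1 := (IsLocallyConstant.iff_eventually_eq _).mp (lc_ray1 (N := N) k) q0
      have e2 := (IsLocallyConstant.iff_eventually_eq _).mp (lc_ray2 (N := N) k) q0
      filter_upwards [e1, e2] with q h1 h2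
      exact ⟨h1, h2⟩
    · rintro q ⟨h1, h2⟩ q' h3 h4
      have h5 := hk q h1 h2
      have h6 := hk q' (by rw [← h3, h1]) (by rw [← h4, h2])
      simp only [Set.mem_ofPred_eq] at h5 h6
      rw [abs_lt] at h5 h6
      rw [abs_le]
      constructor <;> linarith [h5.1, h5.2, h6.1, h6.2]

theorem close_of_agree {f : Bd2 N → ℝ} (hf : Continuous f) {ε : ℝ} (hε : 0 < ε) :
    ∃ k : ℕ, ∀ μ ν : Current N, Agree (k + k) ν μ →
      |∫ q in U 1, f q ∂ν.meas - ∫ q in U 1, f q ∂μ.meas| ≤ 2 * ε * ms μ := by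
  classical
  obtain ⟨k, hk⟩ := uniform_window hf hε
  refine ⟨k, fun μ ν hag => ?_⟩
  set Φ : FreeGroup (Fin N) → FreeGroup (Fin N) → ℝ := fun s v =>
    if h : ∃ q ∈ (U 1 : Set (Bd2 N)), ray q.1.1 k = s ∧ ray q.1.2 k = v then f h.choose else 0
    with hΦ
  have hclose : ∀ q ∈ (U 1 : Set (Bd2 N)), |f q - Φ (ray q.1.1 k) (ray q.1.2 k)| ≤ ε := by
    intro q hq
    have h : ∃ q' ∈ (U 1 : Set (Bd2 N)), ray q'.1.1 k = ray q.1.1 k ∧
        ray q'.1.2 k = ray q.1.2 k := ⟨q, hq, rfl, rfl⟩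
    rw [hΦ]
    simp only
    rw [dif_pos h]
    have h1 := h.choose_spec
    exact hk q hq _ h1.2.1.symm h1.2.2.symm
  have hcΦ : Continuous fun q : Bd2 N => Φ (ray q.1.1 k) (ray q.1.2 k) := by
    have h1 : IsLocallyConstant fun q : Bd2 N => Φ (ray q.1.1 k) (ray q.1.2 k) := by
      rw [IsLocallyConstant.iff_eventually_eq]
      intro q
      have e1 := (IsLocallyConstant.iff_eventually_eq _).mp (lc_ray1 (N := N) k) q
      have e2 := (IsLocallyConstant.iff_eventually_eq _).mp (lc_ray2 (N := N) k) q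
      filter_upwards [e1, e2] with p h1 h2
      rw [h1, h2]
    exact h1.continuous
  have hint : ∀ (ρ : Current N) {g : Bd2 N → ℝ}, Continuous g →
      IntegrableOn g (U 1) ρ.meas := fun ρ g hg =>
    hg.continuousOn.integrableOn_compact isCompact_U1
  have hest : ∀ ρ : Current N, |∫ q in U 1, f q ∂ρ.meas -
      ∫ q in U 1, Φ (ray q.1.1 k) (ray q.1.2 k) ∂ρ.meas| ≤ ε * ms ρ := by
    intro ρ
    rw [← integral_sub (hint ρ hf) (hint ρ hcΦ)]
    have := norm_setIntegral_le_of_norm_le_const (μ := ρ.meas) (s := (U 1 : Set (Bd2 N)))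
      (C := ε) (U_lt ρ) (f := fun q => f q - Φ (ray q.1.1 k) (ray q.1.2 k))
      (fun q hq => hclose q hq)
    exact this
  have h1 := hest μ
  have h2 := hest ν
  rw [hag.window Φ, hag.ms] at h2
  rw [abs_le] at h1 h2 ⊢
  constructor <;> linarith [h1.1, h1.2, h2.1, h2.2]

theorem tendsto_of_base {ν : ℕ → Current N} {μ : Current N}
    (base : ∀ f : Bd2 N → ℝ, Continuous f → (∀ q, q ∉ U 1 → f q = 0) →
      Tendsto (fun k => ∫ q, f q ∂(ν k).meas) atTop (𝓝 (∫ q, f q ∂μ.meas))) :
    Tendsto ν atTop (𝓝 μ) := by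
  classical
  have single : ∀ (v : FreeGroup (Fin N)) (f : Bd2 N → ℝ), Continuous f →
      (∀ q, q ∉ U v → f q = 0) →
      Tendsto (fun k => ∫ q, f q ∂(ν k).meas) atTop (𝓝 (∫ q, f q ∂μ.meas)) := by
    intro v f hf hU
    have h3 := base (fun q => f (v • q)) (hf.comp (continuous_smul_bd2 v)) (by
      intro q hq
      apply hU
      intro h
      have := (smul_mem_U v 1 q).mp (by rw [mul_one]; exact h)
      exact hq this)
    simp only [integral_smul_pre _ v hf] at h3
    exact h3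
  rw [tendsto_current_iff]
  have main : ∀ (B : Finset (FreeGroup (Fin N))) (f : Bd2 N → ℝ), Continuous f →
      HasCompactSupport f → (∀ q, f q ≠ 0 → ∃ v ∈ B, q ∈ U v) →
      Tendsto (fun k => ∫ q, f q ∂(ν k).meas) atTop (𝓝 (∫ q, f q ∂μ.meas)) := by
    intro B
    induction B using Finset.induction_on with
    | empty =>
      intro f _ _ h3
      have : f = fun _ => 0 := by
        funext q
        by_contra hc
        obtain ⟨v, hv, _⟩ := h3 q hc
        simp at hv
      rw [this]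
      simp
    | insert v B _ ih =>
      intro f hf hcs h3
      have hc1 : Continuous ((U v).indicator f) := by
        apply continuous_indicator
        · intro a ha
          rw [(isClopen_U v).frontier_eq] at ha
          exact absurd ha (Set.notMem_empty _)
        · exact hf.continuousOn
      have hc2 : Continuous ((U v)ᶜ.indicator f) := by
        apply continuous_indicator
        · intro a ha
          rw [(isClopen_U v).compl.frontier_eq] at ha
          exact absurd ha (Set.notMem_empty _)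
        · exact hf.continuousOn
      have hs1 : HasCompactSupport ((U v).indicator f) :=
        hcs.mono (Set.support_indicator.trans_subset Set.inter_subset_right)
      have hs2 : HasCompactSupport ((U v)ᶜ.indicator f) :=
        hcs.mono (Set.support_indicator.trans_subset Set.inter_subset_right)
      have t1 := single v _ hc1 (fun q hq => Set.indicator_of_notMem hq f)
      have t2 := ih _ hc2 hs2 (by
        intro q hq
        have hq1 : q ∉ U v := by
          intro h
          have h' : q ∉ ((U v)ᶜ : Set (Bd2 N)) := fun h' => h' h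
          exact hq (Set.indicator_of_notMem h' f)
        have hq2 : f q ≠ 0 := by
          rwa [Set.indicator_of_mem (by exact hq1)] at hq
        obtain ⟨w, hw, hqw⟩ := h3 q hq2
        rcases Finset.mem_insert.mp hw with rfl | hw
        · exact absurd hqw hq1
        · exact ⟨w, hw, hqw⟩)
      have hadd : ∀ κ : Current N, ∫ q, f q ∂κ.meas =
          ∫ q, (U v).indicator f q ∂κ.meas + ∫ q, (U v)ᶜ.indicator f q ∂κ.meas := by
        intro κ
        rw [← integral_add (integrable_test κ ⟨_, hc1, hs1⟩) (integrable_test κ ⟨_, hc2, hs2⟩)]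
        congr 1
        funext q
        exact (congrFun (Set.indicator_self_add_compl (U v) f) q).symm
      simp only [hadd]
      exact t1.add t2
  intro f hf hcs
  obtain ⟨B, hB⟩ := hcs.isCompact.elim_finite_subcover
    (fun v : FreeGroup (Fin N) => (U v : Set (Bd2 N))) (fun v => isOpen_U v) (fun q _ => by
      obtain ⟨v, hv⟩ := exists_mem_U q
      exact Set.mem_iUnion.mpr ⟨v, hv⟩)
  apply main B f hf hcs
  intro q hq
  have := hB (subset_tsupport f hq)
  rw [Set.mem_iUnion₂] at this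
  obtain ⟨v, hv, h⟩ := this
  exact ⟨v, hv, h⟩

theorem tendsto_of_agree {ν : ℕ → Current N} {μ : Current N} (h : ∀ k, Agree (k + 2) (ν k) μ) :
    Tendsto ν atTop (𝓝 μ) := by
  apply tendsto_of_base
  intro f hf hU
  have e : ∀ ρ : Current N, ∫ q, f q ∂ρ.meas = ∫ q in U 1, f q ∂ρ.meas := fun ρ =>
    (setIntegral_eq_integral_of_forall_compl_eq_zero hU).symm
  simp only [e]
  rw [Metric.tendsto_atTop]
  intro ε hε
  have hms : 0 < 2 * ms μ + 1 := by have := ms_nonneg μ; linarith
  obtain ⟨k, hk⟩ := close_of_agree hf (ε := ε / (2 * ms μ + 1)) (div_pos hε hms)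
  refine ⟨k + k, fun j hj => ?_⟩
  have h1 := hk μ (ν j) ((h j).mono (by omega))
  rw [Real.dist_eq]
  refine lt_of_le_of_lt h1 ?_
  have h2 : 2 * (ε / (2 * ms μ + 1)) * ms μ = ε * (2 * ms μ) / (2 * ms μ + 1) := by ring
  rw [h2, div_lt_iff₀ hms]
  nlinarith

theorem good_all {A : FTree N} (hA : A.InCV) (z : A.T)
    {K : ℝ} (hK0 : 0 ≤ K) (hK : ∀ u v : FreeGroup (Fin N), (u * v).norm = u.norm + v.norm →
      (lenFn A z).L u + (lenFn A z).L v - K ≤ (lenFn A z).L (u * v))
    {c : Current N → ℝ} (hcont : Continuous c) (hadd : ∀ μ ν, c (μ + ν) = c μ + c ν)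
    (hsmul : ∀ (r : ℝ≥0) (μ : Current N), c (r • μ) = r * c μ)
    (hcount : ∀ (g : FreeGroup (Fin N)) (hg : g ≠ 1), c (eta g hg) = A.len g) (μ : Current N) :
    Good c (lenFn A z) (2 * K) μ := by
  have hzero : (0 : ℝ≥0) • (0 : Current N) = 0 := by
    apply Current.ext
    rw [Current.smul_meas, Current.zero_meas, smul_zero]
  have h0 : Good c (lenFn A z) (2 * K) 0 := by
    intro n
    have e1 : c (0 : Current N) = 0 := by
      have := hsmul 0 0
      rw [hzero, NNReal.coe_zero, zero_mul] at this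
      exact this
    have e2 : av (lenFn A z) 0 n = 0 := by
      unfold av
      rw [Current.zero_meas]
      simp
    have e3 : ms (0 : Current N) = 0 := by
      unfold ms
      rw [Current.zero_meas]
      simp
    rw [e1, e2, e3]
    simp
  have hex : ∀ k : ℕ, ∃ ν : Current N, Good c (lenFn A z) (2 * K) ν ∧ Agree (k + 2) ν μ := by
    intro k
    refine exists_agree (m := k + 1) (by omega) (Good c (lenFn A z) (2 * K)) h0
      (fun μ ν => Good.add hadd) (fun r ν => Good.smul hsmul r) ?_ μ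
    intro x p q hp hx hper hq hd
    exact hq.good hp hx hper hd hA z hK0 hK (hcount _ _)
  choose ν hν1 hν2 using hex
  have ht := (hcont.tendsto μ).comp (tendsto_of_agree hν2)
  intro n
  have hcn : Tendsto (fun k => 2 * (n : ℝ) * c (ν k)) atTop (𝓝 (2 * n * c μ)) :=
    ht.const_mul _
  constructor
  · refine le_of_tendsto hcn ?_
    filter_upwards [eventually_ge_atTop n] with k hk
    rw [← (hν2 k).av (by omega) (lenFn A z)]
    exact (hν1 k n).1
  · refine ge_of_tendsto (hcn.add_const (2 * K * ms μ)) ?_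
    filter_upwards [eventually_ge_atTop n] with k hk
    rw [← (hν2 k).av (by omega) (lenFn A z), ← (hν2 k).ms]
    exact (hν1 k n).2

end Pool.Agent.P8H64.PS
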