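import Mathlib
import Pool.Agent.P8H64.PS.Dense

set_option autoImplicit false

/-!
# The Poincaré series
-/

namespace Pool.Agent.P8H64.PS

open Pool.Agent.H472R3 Pool.Agent.H67R3.FSR Filter Topology MeasureTheory
open Pool.Agent.H67R4.SR hiding Q
open scoped ENNReal NNReal

variable {N : ℕ}

theorem card_Sn (n : ℕ) : (Sn N n).card ≤ (Fintype.card (Lt N)) ^ n := by
  classical
  induction n with
  | zero =>
    rw [pow_zero, Finset.card_le_one]
    intro a ha b hb
    rw [mem_Sn, FreeGroup.norm_eq_zero] at ha hb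
    rw [ha, hb]
  | succ n ih =>
    have hsub : Sn N (n + 1) ⊆ ((Sn N n) ×ˢ (Finset.univ : Finset (Lt N))).image
        fun t => t.1 * lt t.2 := by
      intro w hw
      rw [mem_Sn] at hw
      rw [Finset.mem_image]
      rcases List.eq_nil_or_concat w.toWord with h | ⟨l, b, h⟩
      · unfold FreeGroup.norm at hw
        rw [h] at hw
        simp at hw
      · rw [List.concat_eq_append] at h
        have hr : FreeGroup.IsReduced (l ++ [b]) := by
          rw [← h]; exact FreeGroup.isReduced_toWord
        refine ⟨(FreeGroup.mk l, b), ?_, ?_⟩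
        · rw [Finset.mem_product]
          refine ⟨?_, Finset.mem_univ _⟩
          rw [mem_Sn, (norm_append hr).1]
          unfold FreeGroup.norm at hw
          rw [h, List.length_append, List.length_singleton] at hw
          omega
        · have : (FreeGroup.mk (l ++ [b]) : FreeGroup (Fin N)) = FreeGroup.mk l * lt b := by
            rw [← FreeGroup.mul_mk]; rfl
          rw [← this, ← h, FreeGroup.mk_toWord]
    refine (Finset.card_le_card hsub).trans (Finset.card_image_le.trans ?_)
    rw [Finset.card_product, Finset.card_univ, pow_succ]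
    exact Nat.mul_le_mul_right _ ih

theorem summable_norm {r : ℝ} (hr0 : 0 ≤ r) (hr : (Fintype.card (Lt N)) * r < 1) :
    Summable fun g : FreeGroup (Fin N) => r ^ g.norm := by
  classical
  set d : ℝ := (Fintype.card (Lt N)) * r with hd
  have hd0 : 0 ≤ d := by positivity
  apply summable_of_sum_le (c := (1 - d)⁻¹) (fun g => pow_nonneg hr0 _)
  intro u
  set n0 := u.sup fun g => g.norm with hn0
  have hsub : u ⊆ (Finset.range (n0 + 1)).biUnion fun n => Sn N n := by
    intro g hg
    rw [Finset.mem_biUnion]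
    refine ⟨g.norm, ?_, mem_Sn.mpr rfl⟩
    rw [Finset.mem_range]
    have := Finset.le_sup (f := fun g : FreeGroup (Fin N) => g.norm) hg
    omega
  refine (Finset.sum_le_sum_of_subset_of_nonneg hsub fun g _ _ => pow_nonneg hr0 _).trans ?_
  rw [Finset.sum_biUnion]
  · have h1 : ∀ n ∈ Finset.range (n0 + 1), ∑ g ∈ Sn N n, r ^ g.norm ≤ d ^ n := by
      intro n _
      have : ∑ g ∈ Sn N n, r ^ g.norm = ∑ g ∈ Sn N n, r ^ n :=
        Finset.sum_congr rfl fun g hg => by rw [mem_Sn.mp hg]
      rw [this, Finset.sum_const, nsmul_eq_mul, hd, mul_pow]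
      apply mul_le_mul_of_nonneg_right _ (pow_nonneg hr0 _)
      exact_mod_cast card_Sn n
    refine (Finset.sum_le_sum h1).trans ?_
    have h2 := (summable_geometric_of_lt_one hd0 hr).sum_le_tsum (Finset.range (n0 + 1))
      (fun n _ => pow_nonneg hd0 n)
    rwa [tsum_geometric_of_lt_one hd0 hr] at h2
  · intro i _ j _ hij
    rw [Function.onFun, Finset.disjoint_left]
    intro g h1 h2
    exact hij ((mem_Sn.mp h1).symm.trans (mem_Sn.mp h2))

/-- The exponents for which the Poincaré series converges. -/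
def conv (A : FTree N) : Set ℝ :=
  {s : ℝ | ∃ x : A.T, Summable fun g : FreeGroup (Fin N) => Real.exp (-s * dist x (g • x))}

theorem critExp_eq (A : FTree N) : critExp A = sInf (conv A) := rfl

theorem conv_nonempty {A : FTree N} (hA : A.InCV) : (conv A).Nonempty := by
  obtain ⟨x⟩ := A.isRTree.nonempty
  obtain ⟨c, hc, hlow⟩ := lower (lenFn A x) (hyperbolic A hA.1 x) (proper A hA x)
  set k : ℝ := ((Fintype.card (Lt N) : ℕ) : ℝ) with hk
  have hk0 : 0 ≤ k := Nat.cast_nonneg _
  -- choose `s` with `exp (- s c) = 1 / (k + 1)`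
  refine ⟨Real.log (k + 1) / c, x, ?_⟩
  have h1 : Summable fun g : FreeGroup (Fin N) => ((k + 1)⁻¹) ^ g.norm := by
    apply summable_norm (by positivity)
    rw [← hk, ← div_eq_mul_inv, div_lt_one (by linarith)]
    linarith
  refine Summable.of_nonneg_of_le (fun g => (Real.exp_pos _).le) (fun g => ?_) h1
  have h2 := hlow g
  rw [lenFn_L] at h2
  have h3 : 0 ≤ Real.log (k + 1) := Real.log_nonneg (by linarith)
  have h4 : ((k + 1)⁻¹) ^ g.norm = Real.exp (-(Real.log (k + 1) * g.norm)) := by
    rw [inv_pow, ← Real.exp_log (show (0 : ℝ) < (k + 1) ^ g.norm by positivity), ← Real.exp_neg,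
      Real.log_pow]
    congr 1
    ring
  rw [h4, Real.exp_le_exp]
  have h5 : Real.log (k + 1) * g.norm ≤ Real.log (k + 1) / c * dist x (g • x) := by
    rw [div_mul_eq_mul_div, le_div_iff₀ hc, mul_assoc]
    apply mul_le_mul_of_nonneg_left _ h3
    linarith
  linarith

/-- Positive words. -/
noncomputable def pw {i j : Fin N} (_ : i ≠ j) (n : ℕ) (f : Fin n → Bool) :
    FreeGroup (Fin N) :=
  FreeGroup.mk (List.ofFn fun k => if f k then ((i, true) : Lt N) else (j, true))

theorem pw_word {i j : Fin N} (h : i ≠ j) (n : ℕ) (f : Fin n → Bool) :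
    (pw h n f).toWord = List.ofFn fun k => if f k then ((i, true) : Lt N) else (j, true) := by
  apply toWord_mk_red
  unfold FreeGroup.IsReduced
  apply List.Pairwise.isChain
  rw [List.pairwise_ofFn]
  intro a b _ _
  split_ifs <;> rfl

theorem pw_norm {i j : Fin N} (h : i ≠ j) (n : ℕ) (f : Fin n → Bool) : (pw h n f).norm = n := by
  unfold FreeGroup.norm
  rw [pw_word, List.length_ofFn]

theorem pw_inj {i j : Fin N} (h : i ≠ j) (n : ℕ) : Function.Injective (pw h n) := by
  intro f g hfg
  have h1 := congrArg FreeGroup.toWord hfg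
  rw [pw_word, pw_word] at h1
  have h2 := List.ofFn_injective h1
  funext k
  have h3 := congrFun h2 k
  have h4 : j ≠ i := h.symm
  cases hf : f k <;> cases hg : g k <;> simp_all

theorem conv_lower (hN : 2 ≤ N) {A : FTree N} : ∃ s0 : ℝ, 0 < s0 ∧ ∀ s ∈ conv A, s0 ≤ s := by
  classical
  obtain ⟨z⟩ := A.isRTree.nonempty
  have hij : (⟨0, by omega⟩ : Fin N) ≠ ⟨1, by omega⟩ := by simp
  obtain ⟨C0, hC0, hup0⟩ := upper (lenFn A z)
  -- the lower bound must not depend on the base point
  refine ⟨Real.log 2 / (C0 + 1), div_pos (Real.log_pos (by norm_num)) (by linarith), ?_⟩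
  rintro s ⟨x, hs⟩
  by_contra hlt
  push Not at hlt
  set D := dist x z with hD
  have hD0 : 0 ≤ D := dist_nonneg
  have hdist : ∀ g : FreeGroup (Fin N), dist x (g • x) ≤ C0 * g.norm + 2 * D := by
    intro g
    have h1 := dist_triangle4 x z (g • z) (g • x)
    have h2 := hup0 g
    rw [lenFn_L] at h2
    rw [A.isometric g z x, dist_comm z x] at h1
    linarith
  set t := max s 0 with ht
  have ht0 : 0 ≤ t := le_max_right _ _
  have hst : s ≤ t := le_max_left _ _
  have htC : t * C0 ≤ Real.log 2 := by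
    have h1 : t ≤ Real.log 2 / (C0 + 1) := by
      rw [ht]
      apply max_le hlt.le
      exact div_nonneg (Real.log_nonneg (by norm_num)) (by linarith)
    rw [le_div_iff₀ (by linarith)] at h1
    nlinarith
  have hterm : ∀ g : FreeGroup (Fin N),
      Real.exp (-(2 * D * t)) * (1 / 2) ^ g.norm ≤ Real.exp (-s * dist x (g • x)) := by
    intro g
    have h1 : ((1 : ℝ) / 2) ^ g.norm = Real.exp (-(Real.log 2 * g.norm)) := by
      rw [one_div, inv_pow, ← Real.exp_log (show (0 : ℝ) < 2 ^ g.norm by positivity),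
        ← Real.exp_neg, Real.log_pow]
      congr 1
      ring
    rw [h1, ← Real.exp_add, Real.exp_le_exp]
    have h2 := hdist g
    have h3 : 0 ≤ dist x (g • x) := dist_nonneg
    have h4 : s * dist x (g • x) ≤ t * dist x (g • x) := mul_le_mul_of_nonneg_right hst h3
    have h5 : t * dist x (g • x) ≤ t * (C0 * g.norm + 2 * D) := mul_le_mul_of_nonneg_left h2 ht0
    have h6 : t * C0 * g.norm ≤ Real.log 2 * g.norm :=
      mul_le_mul_of_nonneg_right htC (Nat.cast_nonneg _)
    nlinarith
  set P : ℕ → Finset (FreeGroup (Fin N)) := fun n => Finset.univ.image (pw hij n) with hP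
  have hcard : ∀ n, (P n).card = 2 ^ n := by
    intro n
    rw [hP]
    simp only
    rw [Finset.card_image_of_injective _ (pw_inj hij n), Finset.card_univ]
    simp
  have hnorm : ∀ n, ∀ g ∈ P n, g.norm = n := by
    intro n g hg
    rw [hP, Finset.mem_image] at hg
    obtain ⟨f, _, rfl⟩ := hg
    exact pw_norm hij n f
  set ε := Real.exp (-(2 * D * t)) with hε
  have hε0 : 0 < ε := Real.exp_pos _
  have hsum : ∀ n, ε ≤ ∑ g ∈ P n, Real.exp (-s * dist x (g • x)) := by
    intro n
    have h1 : ∑ g ∈ P n, ε * (1 / 2) ^ n ≤ ∑ g ∈ P n, Real.exp (-s * dist x (g • x)) := by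
      apply Finset.sum_le_sum
      intro g hg
      have := hterm g
      rwa [hnorm n g hg] at this
    rw [Finset.sum_const, hcard, nsmul_eq_mul] at h1
    have h2 : ((2 ^ n : ℕ) : ℝ) * (ε * (1 / 2) ^ n) = ε := by
      push_cast
      have : (2 : ℝ) ^ n * (1 / 2) ^ n = 1 := by
        rw [← mul_pow]
        norm_num
      calc (2 : ℝ) ^ n * (ε * (1 / 2) ^ n) = ε * (2 ^ n * (1 / 2) ^ n) := by ring
        _ = ε := by rw [this, mul_one]
    rwa [h2] at h1
  obtain ⟨n, hn⟩ := exists_nat_gt ((∑' g : FreeGroup (Fin N), Real.exp (-s * dist x (g • x))) / ε)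
  rw [div_lt_iff₀ hε0] at hn
  have h1 := hs.sum_le_tsum ((Finset.range n).biUnion P) (fun g _ => (Real.exp_pos _).le)
  rw [Finset.sum_biUnion] at h1
  · have h2 := Finset.card_nsmul_le_sum (Finset.range n)
      (fun n => ∑ g ∈ P n, Real.exp (-s * dist x (g • x))) ε (fun n _ => hsum n)
    rw [Finset.card_range, nsmul_eq_mul] at h2
    linarith
  · intro i _ j _ hne
    rw [Function.onFun, Finset.disjoint_left]
    intro g h1 h2
    exact hne ((hnorm i g h1).symm.trans (hnorm j g h2))

theorem critExp_pos (hN : 2 ≤ N) {A : FTree N} (hA : A.InCV) : 0 < critExp A := by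
  obtain ⟨s0, h0, h1⟩ := conv_lower hN (A := A)
  exact lt_of_lt_of_le h0 (le_csInf (conv_nonempty hA) h1)

end Pool.Agent.P8H64.PS
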