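import Mathlib
import Pool.Agent.P8H64.PS.Growth

set_option autoImplicit false

/-!
# The shadow estimate for Patterson-Sullivan currents; the inequality
-/

namespace Pool.Agent.P8H64.PS

open Pool.Agent.H472R3 Pool.Agent.H67R3.FSR Filter Topology MeasureTheory
open Pool.Agent.H67R4.SR hiding Q
open scoped ENNReal NNReal

variable {N : ℕ}

instance : SecondCountableTopology (Bd N) := by
  have h : Topology.IsInducing (fun ξ : Bd N => ξ.1) := ⟨rfl⟩
  exact h.secondCountableTopology

/-- The boundary points whose rays begin with `w`. -/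
def bcyl (n : ℕ) (w : FreeGroup (Fin N)) : Set (Bd N) := {ζ | ray ζ n = w}

theorem meas_bcyl (n : ℕ) (w : FreeGroup (Fin N)) : MeasurableSet (bcyl n w) :=
  ((isLocallyConstant_ray n).isOpen_fiber w).measurableSet

theorem ps_cyl {A : FTree N} (hA : A.InCV) {ν : A.T → Measure (Bd N)}
    (hν : IsPattersonSullivan A ν) (hh : 0 ≤ critExp A) (x : A.T) {K : ℝ}
    (hK : ∀ u v : FreeGroup (Fin N), (u * v).norm = u.norm + v.norm →
      (lenFn A x).L u + (lenFn A x).L v - K ≤ (lenFn A x).L (u * v))
    {n : ℕ} {w : FreeGroup (Fin N)} (hw : w.norm = n) :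
    ν x (bcyl n w) ≤
      ENNReal.ofReal (Real.exp (-critExp A * ((lenFn A x).L w - K))) * ν x Set.univ := by
  set S : Set (Bd N) := {ζ | w • ζ ∈ bcyl n w} with hS
  have hSm : MeasurableSet S := (continuous_smul_bd w).measurable (meas_bcyl n w)
  have e1 : ν x (bcyl n w) = ν (w⁻¹ • x) S := by
    rw [← hν.equivariant w⁻¹ x, Measure.map_apply (continuous_smul_bd w⁻¹).measurable hSm]
    congr 1
    ext ζ
    simp only [hS, Set.mem_preimage, Set.mem_ofPred_eq, smul_inv_smul]
  rw [e1, hν.conformal x (w⁻¹ • x), withDensity_apply _ hSm]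
  have h1 : ∫⁻ ζ in S, ENNReal.ofReal (Real.exp (-critExp A * busemann A ζ (w⁻¹ • x) x)) ∂ν x ≤
      ∫⁻ _ in S, ENNReal.ofReal (Real.exp (-critExp A * ((lenFn A x).L w - K))) ∂ν x := by
    apply setLIntegral_mono' hSm
    intro ζ hζ
    apply ENNReal.ofReal_le_ofReal
    rw [Real.exp_le_exp]
    have h2 : (lenFn A x).L w - K ≤ busemann A ζ (w⁻¹ • x) x := by
      apply busemann_ge hA x hK
      intro m
      have h3 : ray (w • ζ) n = w := hζ
      have h4 := ray_add (w • ζ) n m
      rw [h3, inv_smul_smul] at h4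
      rw [← h4, ray_norm, hw]
    nlinarith
  refine h1.trans ?_
  rw [setLIntegral_const]
  gcongr
  exact Set.subset_univ _

theorem ps_current_cyl {A : FTree N} (hA : A.InCV) {μ : Current N} (hμ : IsPSCurrent A μ)
    (hh : 0 ≤ critExp A) : ∃ (x : A.T) (C : ℝ), 0 ≤ C ∧ ∀ (n : ℕ) (w : FreeGroup (Fin N)),
      w.norm = n → μ.meas.real (cyl n w) ≤ C * Real.exp (-(critExp A * (lenFn A x).L w)) := by
  obtain ⟨ν, hν, x, c, hc⟩ := hμ
  obtain ⟨K, hK0, hK⟩ := bounded_cancellation (lenFn A x) (hyperbolic A hA.1 x) (proper A hA x)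
  have : IsFiniteMeasure (ν x) := ⟨hν.finite x⟩
  set h := critExp A with hhdef
  set V : ℝ := (ν x).real Set.univ with hV
  have hV0 : 0 ≤ V := measureReal_nonneg
  refine ⟨x, c * Real.exp (h * K) * V * (Real.exp (h * K) * V), by positivity, ?_⟩
  intro n w hw
  apply ENNReal.toReal_le_of_le_ofReal (by positivity)
  set B : Set (Bd N × Bd N) := {p | p.1.1 1 ≠ p.2.1 1 ∧ ray p.2 n = w} with hB
  have hBm : MeasurableSet B := by
    have h1 : IsOpen {p : Bd N × Bd N | p.1.1 1 ≠ p.2.1 1} :=
      isOpen_ne_fun ((continuous_eval 1).comp continuous_fst)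
        ((continuous_eval 1).comp continuous_snd)
    have h2 : IsOpen {p : Bd N × Bd N | ray p.2 n = w} :=
      ((isLocallyConstant_ray n).comp_continuous continuous_snd).isOpen_fiber w
    exact (h1.inter h2).measurableSet
  have hval : Measurable fun q : Bd2 N => q.1 := by
    have : Continuous fun q : Bd2 N => q.1 := continuous_subtype_val
    exact this.measurable
  have e1 : μ.meas (cyl n w) = (μ.meas.map fun q : Bd2 N => q.1) B := by
    rw [Measure.map_apply hval hBm]
    rfl
  rw [e1, hc]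
  have e2 : (c • ((((ν x).prod (ν x)).restrict {p : Bd N × Bd N | p.1 ≠ p.2}).withDensity fun p =>
        ENNReal.ofReal (Real.exp (2 * h * gromov A x p.1 p.2)))) B =
      c * ∫⁻ p in B, ENNReal.ofReal (Real.exp (2 * h * gromov A x p.1 p.2))
        ∂(((ν x).prod (ν x)).restrict {p : Bd N × Bd N | p.1 ≠ p.2}) := by
    rw [Measure.smul_apply, withDensity_apply _ hBm, ENNReal.smul_def, smul_eq_mul]
  rw [e2]
  have h1 : ∫⁻ p in B, ENNReal.ofReal (Real.exp (2 * h * gromov A x p.1 p.2))
        ∂(((ν x).prod (ν x)).restrict {p : Bd N × Bd N | p.1 ≠ p.2}) ≤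
      ∫⁻ _ in B, ENNReal.ofReal (Real.exp (h * K))
        ∂(((ν x).prod (ν x)).restrict {p : Bd N × Bd N | p.1 ≠ p.2}) := by
    apply setLIntegral_mono' hBm
    intro p hp
    apply ENNReal.ofReal_le_ofReal
    rw [Real.exp_le_exp]
    have h2 := gromov_le hA x hK (ξ := p.1) (ζ := p.2) hp.1
    nlinarith
  have h2 : (((ν x).prod (ν x)).restrict {p : Bd N × Bd N | p.1 ≠ p.2}) B ≤
      ν x Set.univ * ν x (bcyl n w) := by
    refine (Measure.restrict_apply_le _ _).trans ?_
    rw [← Measure.prod_prod]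
    apply measure_mono
    intro p hp
    exact ⟨Set.mem_univ _, hp.2⟩
  have h3 := ps_cyl hA hν hh x hK hw
  rw [setLIntegral_const] at h1
  have hVe : ν x Set.univ = ENNReal.ofReal V := by
    rw [hV, measureReal_def, ENNReal.ofReal_toReal (measure_ne_top _ _)]
  calc (c : ℝ≥0∞) * ∫⁻ p in B, ENNReal.ofReal (Real.exp (2 * h * gromov A x p.1 p.2))
        ∂(((ν x).prod (ν x)).restrict {p : Bd N × Bd N | p.1 ≠ p.2})
      ≤ c * (ENNReal.ofReal (Real.exp (h * K)) * (ν x Set.univ *
        (ENNReal.ofReal (Real.exp (-h * ((lenFn A x).L w - K))) * ν x Set.univ))) := by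
        gcongr
        refine h1.trans ?_
        gcongr
        refine h2.trans ?_
        gcongr
    _ = ENNReal.ofReal (c * (Real.exp (h * K) * (V *
        (Real.exp (-h * ((lenFn A x).L w - K)) * V)))) := by
        rw [hVe, ENNReal.ofReal_mul (NNReal.coe_nonneg c), ENNReal.ofReal_mul (Real.exp_pos _).le,
          ENNReal.ofReal_mul hV0, ENNReal.ofReal_mul (Real.exp_pos _).le,
          ENNReal.ofReal_coe_nnreal]
    _ = ENNReal.ofReal (c * Real.exp (h * K) * V * (Real.exp (h * K) * V) *
        Real.exp (-(h * (lenFn A x).L w))) := by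
        congr 1
        have : Real.exp (-h * ((lenFn A x).L w - K)) =
            Real.exp (h * K) * Real.exp (-(h * (lenFn A x).L w)) := by
          rw [← Real.exp_add]
          congr 1
          ring
        rw [this]
        ring

/-- The main estimate. -/
theorem main_ineq (hN : 2 ≤ N) {A B : FTree N} (hA : A.InCV) (hB : B.InCV) {μ : Current N}
    (hμ : IsPSCurrent A μ) {a b : ℝ}
    (ha : ∀ (x : A.T) {K : ℝ}, 0 ≤ K → (∀ u v : FreeGroup (Fin N), (u * v).norm = u.norm + v.norm →
      (lenFn A x).L u + (lenFn A x).L v - K ≤ (lenFn A x).L (u * v)) →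
        ∀ n : ℕ, 2 * n * a ≤ av (lenFn A x) μ n)
    (hb : ∀ (x : B.T) {K : ℝ}, 0 ≤ K → (∀ u v : FreeGroup (Fin N), (u * v).norm = u.norm + v.norm →
      (lenFn B x).L u + (lenFn B x).L v - K ≤ (lenFn B x).L (u * v)) →
        ∀ n : ℕ, av (lenFn B x) μ n ≤ 2 * n * b + 2 * K * ms μ) (hb0 : 0 ≤ b) :
    critExp A * a ≤ critExp B * b := by
  have hAp := critExp_pos hN hA
  obtain ⟨s0, hs0, hs0'⟩ := conv_lower hN (A := B)
  have key : ∀ s ∈ conv B, critExp A * a ≤ s * b := by
    rintro s hs
    have hsp : 0 < s := lt_of_lt_of_le hs0 (hs0' s hs)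
    obtain ⟨y, hy⟩ := hs
    obtain ⟨x, C, hC, hcyl⟩ := ps_current_cyl hA hμ hAp.le
    obtain ⟨K, hK0, hK⟩ := bounded_cancellation (lenFn A x) (hyperbolic A hA.1 x) (proper A hA x)
    obtain ⟨K', hK0', hK'⟩ := bounded_cancellation (lenFn B y) (hyperbolic B hB.1 y)
      (proper B hB y)
    set h := critExp A with hh
    set Z := ∑' g : FreeGroup (Fin N), Real.exp (-s * dist y (g • y)) with hZ
    have hZ0 : 0 ≤ Z := tsum_nonneg fun _ => (Real.exp_pos _).le
    have h1 : ∀ n : ℕ, h * av (lenFn A x) μ n - s * av (lenFn B y) μ n ≤ C * Z := by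
      intro n
      unfold av
      rw [int_ray μ n (lenFn A x).L, int_ray μ n (lenFn B y).L, Finset.mul_sum, Finset.mul_sum,
        ← Finset.sum_sub_distrib]
      have h2 : ∀ w ∈ Sn N n, h * ((lenFn A x).L w * μ.meas.real (cyl n w)) -
          s * ((lenFn B y).L w * μ.meas.real (cyl n w)) ≤
            C * Real.exp (-s * dist y (w • y)) := by
        intro w hw
        set X := μ.meas.real (cyl n w) with hX
        have hX0 : 0 ≤ X := measureReal_nonneg
        have h3 := hcyl n w (mem_Sn.mp hw)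
        rw [← hX] at h3
        set t := h * (lenFn A x).L w - s * (lenFn B y).L w with ht
        have h4 : t ≤ Real.exp t := by
          have := Real.add_one_le_exp t
          linarith
        calc h * ((lenFn A x).L w * X) - s * ((lenFn B y).L w * X) = X * t := by rw [ht]; ring
          _ ≤ X * Real.exp t := mul_le_mul_of_nonneg_left h4 hX0
          _ ≤ C * Real.exp (-(h * (lenFn A x).L w)) * Real.exp t :=
              mul_le_mul_of_nonneg_right h3 (Real.exp_pos _).le
          _ = C * Real.exp (-s * dist y (w • y)) := by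
              rw [mul_assoc, ← Real.exp_add, ht, ← lenFn_L]
              congr 2
              ring
      refine (Finset.sum_le_sum h2).trans ?_
      rw [← Finset.mul_sum]
      exact mul_le_mul_of_nonneg_left
        (hy.sum_le_tsum (Sn N n) fun g _ => (Real.exp_pos _).le) hC
    have h5 : ∀ n : ℕ, 2 * n * (h * a - s * b) ≤ C * Z + s * (2 * K' * ms μ) := by
      intro n
      have e1 := ha x hK0 hK n
      have e2 := hb y hK0' hK' n
      have e3 := h1 n
      have e4 := mul_le_mul_of_nonneg_left e1 hAp.le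
      have e5 := mul_le_mul_of_nonneg_left e2 hsp.le
      nlinarith
    by_contra hc
    push Not at hc
    obtain ⟨n, hn⟩ := exists_nat_gt ((C * Z + s * (2 * K' * ms μ)) / (2 * (h * a - s * b)))
    rw [div_lt_iff₀ (by linarith)] at hn
    have := h5 n
    linarith
  rcases hb0.eq_or_lt with h0 | h0
  · obtain ⟨s, hs⟩ := conv_nonempty hB
    have := key s hs
    rw [← h0] at this ⊢
    linarith
  · have h1 : critExp A * a / b ≤ sInf (conv B) :=
      le_csInf (conv_nonempty hB) fun s hs => by
        rw [div_le_iff₀ h0]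
        exact key s hs
    rw [div_le_iff₀ h0] at h1
    exact h1

theorem nonneg_of_good {c : Current N → ℝ} {ℓ : LenFn N} {K : ℝ} {μ : Current N}
    (h : Good c ℓ K μ) : 0 ≤ c μ := by
  by_contra hc
  push Not at hc
  obtain ⟨n, hn⟩ := exists_nat_gt ((K * ms μ) / (2 * (-c μ)))
  rw [div_lt_iff₀ (by linarith)] at hn
  have h1 := (h n).2
  have h2 := av_nonneg ℓ μ n
  nlinarith

/-- The intersection number of a point of Outer space with a Patterson-Sullivan current. -/
theorem crit_le (hN : 2 ≤ N) {I : FTree N → Current N → ℝ} (hI : IsIntersectionForm I)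
    {A B : FTree N} (hA : A.InCV) (hB : B.InCV) {μ : Current N} (hμ : IsPSCurrent A μ) :
    critExp A * I A μ ≤ critExp B * I B μ := by
  have hg : ∀ (D : FTree N) (hD : D.InCV) (x : D.T) {K : ℝ}, 0 ≤ K →
      (∀ u v : FreeGroup (Fin N), (u * v).norm = u.norm + v.norm →
        (lenFn D x).L u + (lenFn D x).L v - K ≤ (lenFn D x).L (u * v)) →
      Good (I D) (lenFn D x) (2 * K) μ := by
    intro D hD x K hK0 hK
    exact good_all hD x hK0 hK (hI.continuous D hD) (hI.add D hD) (hI.smul D hD)
      (hI.counting D hD) μ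
  refine main_ineq hN hA hB hμ (fun x K hK0 hK n => (hg A hA x hK0 hK n).1)
    (fun x K hK0 hK n => (hg B hB x hK0 hK n).2) ?_
  obtain ⟨y⟩ := B.isRTree.nonempty
  obtain ⟨K', hK0', hK'⟩ := bounded_cancellation (lenFn B y) (hyperbolic B hB.1 y)
    (proper B hB y)
  exact nonneg_of_good (hg B hB y hK0' hK')

end Pool.Agent.P8H64.PS
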